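import Pool.Agent.H32.RQ.Targets

/-!
Row LOC of the board hpq_modules (`MP_63b6b1_nt`): the lower bound for the number of local zeros.
-/

set_option autoImplicit false

open Finset Pool.Agent.H32.RQ

namespace Pool.Agent.H32.RQ.Loc

variable {s : ℕ}

theorem qf_div (f : Mon s → ℝ) (a : ℝ) (x : Fin s → ℝ) :
    qf (fun p => f p / a) x = qf f x / a := by
  unfold qf
  rw [Finset.sum_div]
  exact Finset.sum_congr rfl fun p _ => by ring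

theorem dq_div (f : Mon s → ℝ) (a : ℝ) (x : Fin s → ℝ) (j : Fin s) :
    dq (fun p => f p / a) x j = dq f x j / a := by
  unfold dq
  rw [Finset.sum_div]
  exact Finset.sum_congr rfl fun p _ => by ring

theorem jm_div (f : Fin 2 → Mon s → ℝ) (a : ℝ) (x : Fin s → ℝ) (j l : Fin s) :
    jm (fun i p => f i p / a) x j l = jm f x j l / a ^ 2 := by
  unfold jm
  rw [dq_div, dq_div, dq_div, dq_div]
  ring

theorem qf_scale (f : Mon s → ℝ) (B : ℝ) (x : Fin s → ℝ) :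
    qf f (fun j => x j / B) = qf f x / B ^ 2 := by
  unfold qf
  rw [Finset.sum_div]
  exact Finset.sum_congr rfl fun p _ => by ring

theorem qf_cast (R : Type) [CommRing R] (c : Fin 2 → Mon s → ℤ) (i : Fin 2) (x : Fin s → ℤ) :
    qf (cm R c i) (fun j => (x j : R)) = ((qf (c i) x : ℤ) : R) := by
  unfold qf cm
  push_cast
  rfl

/-- the bad vectors are few -/
theorem bad_le (s c' b : ℕ) (hs : 6 ≤ s) (hb : 1 ≤ b) :
    ((s ^ 3 * (2 * b + 1) ^ 3 * (2 * b ^ 4 + 1) ^ (s - 1) +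
      s * (2 * (b ^ 4) ^ 2 * (9 * (c' * b ^ 3)) ^ (s - 1)) : ℕ) : ℝ) * b ≤
      (s ^ 3 * 3 ^ 3 * 3 ^ (s - 1) + 2 * s * (9 * c') ^ (s - 1) : ℕ) * (b : ℝ) ^ (4 * s) := by
  obtain ⟨n, rfl⟩ : ∃ n, s = n + 6 := ⟨s - 6, by omega⟩
  have h1 : (2 * b + 1) ^ 3 ≤ (3 * b) ^ 3 := Nat.pow_le_pow_left (by omega) 3
  have hb4 : 1 ≤ b ^ 4 := Nat.one_le_pow _ _ hb
  have h2 : (2 * b ^ 4 + 1) ^ (n + 5) ≤ (3 * b ^ 4) ^ (n + 5) :=
    Nat.pow_le_pow_left (by omega) _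
  have h3 : (n + 6) ^ 3 * (2 * b + 1) ^ 3 * (2 * b ^ 4 + 1) ^ (n + 5) * b ≤
      (n + 6) ^ 3 * 3 ^ 3 * 3 ^ (n + 5) * b ^ (4 * (n + 6)) := by
    calc (n + 6) ^ 3 * (2 * b + 1) ^ 3 * (2 * b ^ 4 + 1) ^ (n + 5) * b
        ≤ (n + 6) ^ 3 * (3 * b) ^ 3 * (3 * b ^ 4) ^ (n + 5) * b := by gcongr
      _ = (n + 6) ^ 3 * 3 ^ 3 * 3 ^ (n + 5) * b ^ (4 * (n + 6)) := by
          rw [mul_pow, mul_pow, ← pow_mul]
          ring
  have h4 : (n + 6) * (2 * (b ^ 4) ^ 2 * (9 * (c' * b ^ 3)) ^ (n + 5)) * b ≤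
      2 * (n + 6) * (9 * c') ^ (n + 5) * b ^ (4 * (n + 6)) := by
    have h5 : (n + 6) * (2 * (b ^ 4) ^ 2 * (9 * (c' * b ^ 3)) ^ (n + 5)) * b =
        2 * (n + 6) * (9 * c') ^ (n + 5) * b ^ (3 * n + 24) := by
      rw [← mul_assoc 9 c', mul_pow (9 * c'), ← pow_mul, ← pow_mul]
      ring
    rw [h5]
    exact Nat.mul_le_mul_left _ (Nat.pow_le_pow_right hb (by omega))
  have h6 : ((n + 6) ^ 3 * (2 * b + 1) ^ 3 * (2 * b ^ 4 + 1) ^ (n + 6 - 1) +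
      (n + 6) * (2 * (b ^ 4) ^ 2 * (9 * (c' * b ^ 3)) ^ (n + 6 - 1))) * b ≤
      ((n + 6) ^ 3 * 3 ^ 3 * 3 ^ (n + 6 - 1) + 2 * (n + 6) * (9 * c') ^ (n + 6 - 1)) *
        b ^ (4 * (n + 6)) := by
    have e : n + 6 - 1 = n + 5 := rfl
    rw [e]
    calc ((n + 6) ^ 3 * (2 * b + 1) ^ 3 * (2 * b ^ 4 + 1) ^ (n + 5) +
          (n + 6) * (2 * (b ^ 4) ^ 2 * (9 * (c' * b ^ 3)) ^ (n + 5))) * b
        = (n + 6) ^ 3 * (2 * b + 1) ^ 3 * (2 * b ^ 4 + 1) ^ (n + 5) * b +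
          (n + 6) * (2 * (b ^ 4) ^ 2 * (9 * (c' * b ^ 3)) ^ (n + 5)) * b := Nat.add_mul _ _ _
      _ ≤ (n + 6) ^ 3 * 3 ^ 3 * 3 ^ (n + 5) * b ^ (4 * (n + 6)) +
          2 * (n + 6) * (9 * c') ^ (n + 5) * b ^ (4 * (n + 6)) := Nat.add_le_add h3 h4
      _ = _ := (Nat.add_mul _ _ _).symm
  exact_mod_cast h6

end Pool.Agent.H32.RQ.Loc

namespace Pool.Agent.H32.RQ

open Loc

open Classical in
/-- LOC -/
theorem pf_LOC (hWFN : T_WFN) (hCUB : T_CUB) (hSIE : T_SIE) (hBDS : T_BDS) (hBDI : T_BDI) :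
    T_LOC := by
  intro s d t w₀ hs hd
  obtain ⟨r, c₁, hr, hc₁, hC⟩ := hCUB s d hd
  obtain ⟨η₁, hη₁, hWf⟩ := hWFN s t w₀
  have hs0 : (0 : ℝ) < s := by
    have : 0 < s := by omega
    exact_mod_cast this
  obtain ⟨σ, hσ⟩ : ∃ σ : ℝ, σ = (s : ℝ) * (s + 1) := ⟨_, rfl⟩
  have hσ0 : 0 < σ := by
    rw [hσ]
    positivity
  obtain ⟨η, hη⟩ : ∃ η : ℝ, η = η₁ * c₁ ^ (s - 2) * 2 ^ (s - 2) / σ ^ 2 := ⟨_, rfl⟩
  have hη0 : 0 < η := by
    rw [hη]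
    positivity
  refine ⟨r, η, c₁ * σ, hr, hη0, by positivity, ?_⟩
  intro W₀ W₁ w c' _ _ δ hcop hW0 hW0t hw hpw hδ hδ0
  obtain ⟨W, hWd⟩ : ∃ W : ℕ, W = W₀ * W₁ := ⟨_, rfl⟩
  rw [← hWd] at hpw ⊢
  have : NeZero (W₀ * W₁) := ⟨mul_ne_zero (NeZero.ne _) (NeZero.ne _)⟩
  have : NeZero W := by
    rw [hWd]
    infer_instance
  have hW1 : 1 ≤ W := Nat.one_le_iff_ne_zero.mpr (NeZero.ne W)
  have hWr : (0 : ℝ) < W := by exact_mod_cast hW1
  obtain ⟨ρ, hρ⟩ : ∃ ρ : ℝ, ρ = δ / σ := ⟨_, rfl⟩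
  have hρ0 : 0 < ρ := by
    rw [hρ]
    positivity
  have hρ1 : ρ ≤ c₁ := by
    rw [hρ, div_le_iff₀ hσ0]
    exact hδ0
  have hδρ : δ = ρ * σ := by
    rw [hρ]
    field_simp
  obtain ⟨L₀, hL⟩ := hSIE s W w (1 / ρ) hs hw hW1 hpw (by positivity)
  obtain ⟨Cb, hCb⟩ : ∃ Cb : ℕ, Cb = s ^ 3 * 3 ^ 3 * 3 ^ (s - 1) + 2 * s * (9 * c') ^ (s - 1) :=
    ⟨_, rfl⟩
  obtain ⟨b₁, hb₁⟩ := exists_nat_ge (L₀ / (2 * ρ))
  obtain ⟨b₂, hb₂⟩ := exists_nat_ge (Cb * (W : ℝ) ^ 2 / (η * δ ^ 2))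
  refine ⟨max 1 (max b₁ b₂), ?_⟩
  intro b A hb hA c hc hRB hPR hW1c
  have hb1 : 1 ≤ b := le_trans (le_max_left _ _) hb
  have hbb1 : b₁ ≤ b := le_trans (le_trans (le_max_left _ _) (le_max_right _ _)) hb
  have hbb2 : b₂ ≤ b := le_trans (le_trans (le_max_right _ _) (le_max_right _ _)) hb
  have hb0 : (0 : ℝ) < b := by exact_mod_cast hb1
  have hA0 : (0 : ℝ) < A := by exact_mod_cast hA
  obtain ⟨B, hB⟩ : ∃ B : ℝ, B = (b : ℝ) ^ 4 := ⟨_, rfl⟩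
  have hB0 : 0 < B := by
    rw [hB]
    positivity
  have hbB : (b : ℝ) ≤ B := by
    rw [hB]
    have h1 : b ≤ b ^ 4 := Nat.le_self_pow (by norm_num) b
    exact_mod_cast h1
  obtain ⟨L, hLd⟩ : ∃ L : ℝ, L = 2 * ρ * B := ⟨_, rfl⟩
  have hLL : L₀ ≤ L := by
    rw [hLd]
    have h1 : L₀ ≤ (b₁ : ℝ) * (2 * ρ) := by
      rwa [div_le_iff₀ (by positivity)] at hb₁
    have h2 : (b₁ : ℝ) ≤ b := by exact_mod_cast hbb1
    nlinarith [mul_le_mul_of_nonneg_right (le_trans h2 hbB) (by positivity : (0:ℝ) ≤ 2 * ρ)]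
  -- the cubes
  obtain ⟨x₀, hx₀1, hx₀2, hx₀3, j₀, l₀, hx₀4⟩ := hRB
  have hcb : ∀ i p, |(c i p : ℤ)| ≤ A := by
    intro i p
    have h1 := (Fintype.mem_piFinset.mp ((Fintype.mem_piFinset.mp hc) i)) p
    rw [Finset.mem_Icc] at h1
    exact abs_le.mpr h1
  have hf1 : ∀ i p, |(fun i p => cm ℝ c i p / A : Fin 2 → Mon s → ℝ) i p| ≤ 1 := by
    intro i p
    show |(c i p : ℝ) / A| ≤ 1
    rw [abs_div, abs_of_pos hA0, div_le_one hA0]
    have := hcb i p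
    exact_mod_cast this
  obtain ⟨Y, hY1, hY2, hY3⟩ := hC (fun i p => cm ℝ c i p / A) x₀ hf1 hx₀1 hx₀2 (by
    intro i
    rw [qf_div, abs_div, abs_of_pos hA0, div_le_iff₀ hA0]
    exact hx₀3 i) ⟨j₀, l₀, by
      rw [jm_div, abs_div, abs_of_pos (by positivity : (0:ℝ) < (A : ℝ) ^ 2),
        le_div_iff₀ (by positivity)]
      exact hx₀4⟩ ρ hρ0 hρ1
  -- the residues
  obtain ⟨Z, hZ⟩ : ∃ Z : Finset (Fin s → ZMod W), Z = Finset.univ.filter fun x : Fin s → ZMod W =>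
    Prm x ∧ ∀ i, qf (cm (ZMod W) c i) x = 0 := ⟨_, rfl⟩
  have hZc : η₁ * (W : ℝ) ^ (s - 2) ≤ (Z.card : ℝ) := by
    have h1 := hWf W₀ W₁ c hcop hW0 hW0t hPR hW1c
    subst hWd
    rw [hZ]
    exact h1
  -- the sets of vectors
  have hX : ∀ (y : Fin s → ℝ) (a : Fin s → ZMod W), ∃ X : Finset (Fin s → ℤ),
      y ∈ Y → a ∈ Z → (∀ x, x ∈ X ↔ (∀ j, B * (y j - ρ) ≤ x j ∧ x j ≤ B * (y j - ρ) + L) ∧
        (∀ j, (x j : ZMod W) = a j) ∧ Prm x) ∧ 1 / 2 * (L / W) ^ s ≤ (X.card : ℝ) := by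
    intro y a
    by_cases hy : y ∈ Y
    · by_cases ha : a ∈ Z
      · have hyj := (hY2 y hy (fun j => y j - ρ) (fun j => by
          rw [sub_sub_cancel_left, abs_neg, abs_of_pos hρ0])).1
        have h1 := hL L hLL (fun j => B * (y j - ρ)) (fun j => by
          rw [abs_mul, abs_of_pos hB0, hLd]
          have h2 : 1 / ρ * (2 * ρ * B) = 2 * B := by
            field_simp
          rw [h2]
          nlinarith [hyj j]) a (by
            rw [hZ, Finset.mem_filter] at ha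
            exact ha.2.1)
        refine ⟨h1.1.toFinset, fun _ _ => ⟨fun x => ?_, ?_⟩⟩
        · exact Set.Finite.mem_toFinset _
        · rw [Set.ncard_eq_toFinset_card _ h1.1] at h1
          exact h1.2
      · exact ⟨∅, fun _ h => absurd h ha⟩
    · exact ⟨∅, fun h => absurd h hy⟩
  choose X hX using hX
  -- properties of the vectors
  have hP : ∀ y ∈ Y, ∀ a ∈ Z, ∀ x ∈ X y a, (∀ j, |(x j : ℝ) / B - y j| ≤ ρ) ∧
      (∀ j, (x j : ZMod W) = a j) ∧ Prm x ∧ (∀ j, |x j| ≤ (b : ℤ) ^ 4) ∧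
      (∃ j, (b : ℤ) ^ 4 < 2 * |x j|) ∧ ∀ i, (W : ℤ) ∣ qf (c i) x ∧
        |((qf (c i) x : ℤ) : ℝ)| ≤ δ * A * (b : ℝ) ^ 8 := by
    intro y hy a ha x hx
    obtain ⟨hx1, hx2, hx3⟩ := ((hX y a hy ha).1 x).mp hx
    have hz : ∀ j, |(x j : ℝ) / B - y j| ≤ ρ := by
      intro j
      obtain ⟨h1, h2⟩ := hx1 j
      rw [abs_le]
      constructor
      · have : y j - ρ ≤ (x j : ℝ) / B := by
          rw [le_div_iff₀ hB0]
          linarith
        linarith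
      · have : (x j : ℝ) / B ≤ y j + ρ := by
          rw [div_le_iff₀ hB0]
          rw [hLd] at h2
          linarith
        linarith
    obtain ⟨hz1, ⟨j₁, hz2⟩, hz3⟩ := hY2 y hy (fun j => (x j : ℝ) / B) hz
    refine ⟨hz, hx2, hx3, ?_, ⟨j₁, ?_⟩, ?_⟩
    · intro j
      have h1 := hz1 j
      rw [abs_div, abs_of_pos hB0, div_le_one hB0, hB] at h1
      exact_mod_cast h1
    · rw [abs_div, abs_of_pos hB0, lt_div_iff₀ hB0, hB] at hz2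
      have h1 : (b : ℝ) ^ 4 < 2 * |(x j₁ : ℝ)| := by linarith
      exact_mod_cast h1
    · intro i
      constructor
      · rw [← ZMod.intCast_zmod_eq_zero_iff_dvd, ← qf_cast (ZMod W) c i x]
        have h1 : (fun j => ((x j : ℤ) : ZMod W)) = a := funext hx2
        rw [h1]
        rw [hZ, Finset.mem_filter] at ha
        exact ha.2.2 i
      · have h1 := hz3 i
        have h2 : qf (fun p => cm ℝ c i p / A) (fun j => (x j : ℝ) / B) =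
            ((qf (c i) x : ℤ) : ℝ) / A / B ^ 2 := by
          rw [qf_div, qf_scale, qf_cast]
          ring
        rw [h2, abs_div, abs_div, abs_of_pos hA0, abs_of_pos (by positivity : (0:ℝ) < B ^ 2),
          div_div, div_le_iff₀ (by positivity)] at h1
        calc |((qf (c i) x : ℤ) : ℝ)| ≤ s * (s + 1) * ρ * (A * B ^ 2) := h1
          _ = δ * A * (b : ℝ) ^ 8 := by
            rw [hδρ, hσ, hB]
            ring
  -- the union
  obtain ⟨U, hU⟩ : ∃ U : Finset (Fin s → ℤ), U = (Y ×ˢ Z).biUnion fun q => X q.1 q.2 := ⟨_, rfl⟩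
  have hUc : (Y.card : ℝ) * Z.card * (1 / 2 * (L / W) ^ s) ≤ U.card := by
    rw [hU, Finset.card_biUnion]
    · push_cast
      rw [← Nat.cast_mul, ← Finset.card_product, ← nsmul_eq_mul]
      refine Finset.card_nsmul_le_sum _ _ _ fun q hq => ?_
      rw [Finset.mem_product] at hq
      exact (hX q.1 q.2 hq.1 hq.2).2
    · intro q hq q' hq' hne
      rw [Finset.mem_coe, Finset.mem_product] at hq hq'
      refine Finset.disjoint_left.mpr ?_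
      intro x hx hx'
      have h1 := hP q.1 hq.1 q.2 hq.2 x hx
      have h2 := hP q'.1 hq'.1 q'.2 hq'.2 x hx'
      apply hne
      refine Prod.ext ?_ (funext fun j => ?_)
      · by_contra hyy
        obtain ⟨j, hj⟩ := hY3 q.1 hq.1 q'.1 hq'.1 hyy
        have h3 := h1.1 j
        have h4 := h2.1 j
        have h5 : |q.1 j - q'.1 j| ≤ |(x j : ℝ) / B - q.1 j| + |(x j : ℝ) / B - q'.1 j| := by
          have : q.1 j - q'.1 j = -((x j : ℝ) / B - q.1 j) + ((x j : ℝ) / B - q'.1 j) := by ring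
          rw [this]
          exact (abs_add_le _ _).trans (by rw [abs_neg])
        linarith
      · rw [← h1.2.1 j, ← h2.2.1 j]
  -- the bad vectors
  have hsub : U ⊆ ((GS s b c').filter fun x => ∀ i, (W : ℤ) ∣ qf (c i) x ∧
      |((qf (c i) x : ℤ) : ℝ)| ≤ δ * A * (b : ℝ) ^ 8) ∪
      (((vb s (b ^ 4)).filter fun x => ¬ Sup b x) ∪
        ((vb s (b ^ 4)).filter fun x => ¬ Iso (c' * b ^ 3) x)) := by
    intro x hx
    rw [hU, Finset.mem_biUnion] at hx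
    obtain ⟨q, hq, hx⟩ := hx
    rw [Finset.mem_product] at hq
    obtain ⟨_, _, h3, h4, h5, h6⟩ := hP q.1 hq.1 q.2 hq.2 x hx
    have hv : x ∈ vb s (b ^ 4) := by
      refine Fintype.mem_piFinset.mpr fun j => ?_
      rw [Finset.mem_Icc]
      have := abs_le.mp (h4 j)
      push_cast
      exact this
    by_cases hS : Sup b x
    · by_cases hI : Iso (c' * b ^ 3) x
      · refine Finset.mem_union_left _ (Finset.mem_filter.mpr ⟨Finset.mem_filter.mpr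
          ⟨hv, ⟨h4, h5, h3, hS, hI⟩⟩, h6⟩)
      · exact Finset.mem_union_right _ (Finset.mem_union_right _ (Finset.mem_filter.mpr ⟨hv, hI⟩))
    · exact Finset.mem_union_right _ (Finset.mem_union_left _ (Finset.mem_filter.mpr ⟨hv, hS⟩))
  have hcard := (Finset.card_le_card hsub).trans ((Finset.card_union_le _ _).trans
    (Nat.add_le_add_left (Finset.card_union_le _ _) _))
  have hbad := Nat.add_le_add (hBDS s (b ^ 4) b) (hBDI s (b ^ 4) (c' * b ^ 3))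
  have hbad2 := bad_le s c' b hs hb1
  rw [← hCb] at hbad2
  obtain ⟨G, hG⟩ : ∃ G : ℕ, G = ((GS s b c').filter fun x => ∀ i, (W : ℤ) ∣ qf (c i) x ∧
      |((qf (c i) x : ℤ) : ℝ)| ≤ δ * A * (b : ℝ) ^ 8).card := ⟨_, rfl⟩
  rw [← hG] at hcard ⊢
  obtain ⟨E, hE⟩ : ∃ E : ℕ, E = s ^ 3 * (2 * b + 1) ^ 3 * (2 * b ^ 4 + 1) ^ (s - 1) +
      s * (2 * (b ^ 4) ^ 2 * (9 * (c' * b ^ 3)) ^ (s - 1)) := ⟨_, rfl⟩
  rw [← hE] at hbad2
  have hUG : (U.card : ℝ) ≤ G + E := by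
    have h1 : U.card ≤ G + E := by
      rw [hE]
      exact hcard.trans (Nat.add_le_add_left hbad _)
    exact_mod_cast h1
  -- the bad vectors are few
  have hEb : (E : ℝ) ≤ η * δ ^ 2 * (b : ℝ) ^ (4 * s) / (W : ℝ) ^ 2 := by
    have h1 : (Cb : ℝ) * (W : ℝ) ^ 2 ≤ b * (η * δ ^ 2) := by
      rw [div_le_iff₀ (by positivity)] at hb₂
      have h2 : (b₂ : ℝ) ≤ b := by exact_mod_cast hbb2
      exact hb₂.trans (mul_le_mul_of_nonneg_right h2 (by positivity))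
    rw [le_div_iff₀ (by positivity)]
    have h3 : (E : ℝ) * b * (W : ℝ) ^ 2 ≤ Cb * (b : ℝ) ^ (4 * s) * (W : ℝ) ^ 2 :=
      mul_le_mul_of_nonneg_right hbad2 (by positivity)
    have h4 : (Cb : ℝ) * (b : ℝ) ^ (4 * s) * (W : ℝ) ^ 2 ≤
        b * (η * δ ^ 2) * (b : ℝ) ^ (4 * s) := by
      nlinarith [mul_le_mul_of_nonneg_right h1 (by positivity : (0:ℝ) ≤ (b : ℝ) ^ (4 * s))]
    have h5 : (b : ℝ) * (E * (W : ℝ) ^ 2) ≤ b * (η * δ ^ 2 * (b : ℝ) ^ (4 * s)) := by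
      calc (b : ℝ) * (E * (W : ℝ) ^ 2) = (E : ℝ) * b * (W : ℝ) ^ 2 := by ring
        _ ≤ b * (η * δ ^ 2) * (b : ℝ) ^ (4 * s) := h3.trans h4
        _ = b * (η * δ ^ 2 * (b : ℝ) ^ (4 * s)) := by ring
    exact le_of_mul_le_mul_left h5 hb0
  -- the main term
  have hmain : 2 * (η * δ ^ 2 * (b : ℝ) ^ (4 * s) / (W : ℝ) ^ 2) ≤ U.card := by
    refine le_trans ?_ hUc
    have h1 : (c₁ / ρ) ^ (s - 2) * (η₁ * (W : ℝ) ^ (s - 2)) * (1 / 2 * (L / W) ^ s) ≤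
        (Y.card : ℝ) * Z.card * (1 / 2 * (L / W) ^ s) := by
      have hL0 : 0 ≤ L := by
        rw [hLd]
        positivity
      have h9 : 0 ≤ 1 / 2 * (L / (W : ℝ)) ^ s :=
        mul_nonneg (by norm_num) (pow_nonneg (div_nonneg hL0 hWr.le) _)
      refine mul_le_mul_of_nonneg_right ?_ h9
      exact mul_le_mul hY1 hZc (mul_nonneg hη₁.le (pow_nonneg hWr.le _)) (Nat.cast_nonneg _)
    refine le_trans (le_of_eq ?_) h1
    obtain ⟨n, rfl⟩ : ∃ n, s = n + 2 := ⟨s - 2, by omega⟩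
    rw [Nat.add_sub_cancel] at hη ⊢
    rw [hη, hLd, hδρ, hB, div_pow, div_pow, mul_pow, mul_pow, ← pow_mul]
    have hbp : (b : ℝ) ^ (4 * (n + 2)) ≠ 0 := by positivity
    field_simp
    ring
  linarith

end Pool.Agent.H32.RQ
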