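import Pool.Agent.H32.RQ.Targets

/-!
Row MN of the board hpq_modules (`MP_63b6b1_nt`): almost all robust pairs have a small zero.
-/

set_option autoImplicit false

open Finset Pool.Agent.H32.RQ

namespace Pool.Agent.H32.RQ.Mn

theorem split (w₀ N : ℕ) (hN : N ≠ 0) : ∃ N₀ N₁ : ℕ, N = N₀ * N₁ ∧ Nat.Coprime N₀ N₁ ∧
    (∀ p : ℕ, p.Prime → p ∣ N₀ → p ≤ w₀) ∧ ∀ p : ℕ, p.Prime → p ∣ N₁ → w₀ < p := by
  induction N using induction_on_primes with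
  | zero => exact absurd rfl hN
  | one =>
    refine ⟨1, 1, rfl, Nat.coprime_one_left 1, ?_, ?_⟩
    · intro p hp h
      exact absurd (Nat.dvd_one.mp h) hp.ne_one
    · intro p hp h
      exact absurd (Nat.dvd_one.mp h) hp.ne_one
  | prime_mul p a hp ih =>
    have ha : a ≠ 0 := fun h => hN (by rw [h, mul_zero])
    obtain ⟨N₀, N₁, h1, h2, h3, h4⟩ := ih ha
    by_cases hpw : p ≤ w₀
    · refine ⟨p * N₀, N₁, by rw [h1, mul_assoc], ?_, ?_, h4⟩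
      · refine Nat.Coprime.mul_left ?_ h2
        exact (Nat.Prime.coprime_iff_not_dvd hp).mpr fun h => absurd (h4 p hp h) (not_lt.mpr hpw)
      · intro q hq h
        rcases (Nat.Prime.dvd_mul hq).mp h with h5 | h5
        · rw [(Nat.prime_dvd_prime_iff_eq hq hp).mp h5]
          exact hpw
        · exact h3 q hq h5
    · refine ⟨N₀, p * N₁, by rw [h1]; ring, ?_, h3, ?_⟩
      · refine Nat.Coprime.mul_right ?_ h2
        exact ((Nat.Prime.coprime_iff_not_dvd hp).mpr fun h => hpw (h3 p hp h)).symm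
      · intro q hq h
        rcases (Nat.Prime.dvd_mul hq).mp h with h5 | h5
        · rw [(Nat.prime_dvd_prime_iff_eq hq hp).mp h5]
          exact not_le.mp hpw
        · exact h4 q hq h5

/-- the choice of the size -/
theorem size (k K₁ A : ℕ) (hk : 1 ≤ k) (hK : 2 ≤ K₁) (hA : 1 ≤ A) : ∃ b : ℕ, 1 ≤ b ∧
    K₁ * A ^ 2 ≤ b ^ k ∧ b ^ k ≤ 2 ^ k * K₁ * A ^ 2 := by
  classical
  have hex : ∃ b : ℕ, K₁ * A ^ 2 ≤ b ^ k :=
    ⟨K₁ * A ^ 2, Nat.le_self_pow (by omega) _⟩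
  have hA2 : 1 ≤ A ^ 2 := Nat.one_le_pow _ _ hA
  have h2 : 2 ≤ K₁ * A ^ 2 := by nlinarith
  refine ⟨Nat.find hex, ?_, Nat.find_spec hex, ?_⟩
  · by_contra h
    have h0 : Nat.find hex = 0 := by omega
    have h1 := Nat.find_spec hex
    rw [h0, zero_pow (by omega)] at h1
    omega
  · have h1 : 2 ≤ Nat.find hex := by
      by_contra h
      have h3 := Nat.find_spec hex
      have h4 : Nat.find hex ≤ 1 := by omega
      have h5 : Nat.find hex ^ k ≤ 1 :=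
        (Nat.pow_le_pow_left h4 k).trans (by rw [one_pow])
      omega
    have h3 := Nat.find_min hex (m := Nat.find hex - 1) (by omega)
    rw [not_le] at h3
    calc Nat.find hex ^ k ≤ (2 * (Nat.find hex - 1)) ^ k := Nat.pow_le_pow_left (by omega) k
      _ = 2 ^ k * (Nat.find hex - 1) ^ k := mul_pow _ _ _
      _ ≤ 2 ^ k * (K₁ * A ^ 2) := Nat.mul_le_mul_left _ h3.le
      _ = 2 ^ k * K₁ * A ^ 2 := (mul_assoc _ _ _).symm

end Pool.Agent.H32.RQ.Mn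

namespace Pool.Agent.H32.RQ

open Mn

open Classical in
/-- MN -/
theorem pf_MN (hVAR : T_VAR) (hTRF : T_TRF) (hSEC : T_SEC) (hLOC : T_LOC) : T_MN := by
  intro s d t w₀ hs hd
  obtain ⟨r, η, δ₀, hr, hη, hδ₀, hL⟩ := hLOC s d t w₀ hs hd
  obtain ⟨C, hC, hS⟩ := hSEC s hs
  refine ⟨r, hr, fun ε hε => ?_⟩
  obtain ⟨κ, hκ⟩ : ∃ κ : ℝ, κ = (4 / 10) ^ (2 * md s) * (η / 25) ^ 2 * ε / (3 * C) := ⟨_, rfl⟩
  have hκ0 : 0 < κ := by
    rw [hκ]
    positivity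
  -- the constants
  obtain ⟨δ, hδd⟩ : ∃ δ : ℝ, δ = min δ₀ (κ / 2) := ⟨_, rfl⟩
  have hδ0 : 0 < δ := by
    rw [hδd]
    exact lt_min hδ₀ (by positivity)
  have hδ1 : δ ≤ δ₀ := by
    rw [hδd]
    exact min_le_left _ _
  have hδ2 : 2 * δ ≤ κ := by
    have : δ ≤ κ / 2 := by
      rw [hδd]
      exact min_le_right _ _
    linarith
  obtain ⟨w₁, hw₁⟩ := exists_nat_ge (1 / κ)
  obtain ⟨w, hwd⟩ : ∃ w : ℕ, w = max (max 4 w₀) w₁ := ⟨_, rfl⟩
  have hw4 : 4 ≤ w := by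
    rw [hwd]
    exact le_trans (le_max_left _ _) (le_max_left _ _)
  have hww : w₀ ≤ w := by
    rw [hwd]
    exact le_trans (le_max_right _ _) (le_max_left _ _)
  have hwk : 1 / (w : ℝ) ≤ κ := by
    have h1 : (w₁ : ℝ) ≤ w := by
      rw [hwd]
      exact_mod_cast le_max_right _ _
    have h2 : 1 / κ ≤ w := hw₁.trans h1
    have hw0 : (0 : ℝ) < w := by
      have : 0 < w := by omega
      exact_mod_cast this
    rw [div_le_iff₀ hw0]
    rw [div_le_iff₀ hκ0] at h2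
    linarith
  obtain ⟨K₁', hK₁'⟩ := exists_nat_ge (4 / κ)
  obtain ⟨K₁, hK₁d⟩ : ∃ K₁ : ℕ, K₁ = max 2 K₁' := ⟨_, rfl⟩
  have hK₁2 : 2 ≤ K₁ := by
    rw [hK₁d]
    exact le_max_left _ _
  have hK₁k : 4 / κ ≤ K₁ := by
    have h1 : (K₁' : ℝ) ≤ K₁ := by
      rw [hK₁d]
      exact_mod_cast le_max_right _ _
    exact hK₁'.trans h1
  -- the modulus
  obtain ⟨W, hWd⟩ : ∃ W : ℕ, W = (w.factorial) ^ (2 * t + 1) := ⟨_, rfl⟩
  have hW0 : W ≠ 0 := by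
    rw [hWd]
    exact pow_ne_zero _ (Nat.factorial_ne_zero w)
  have hWg : ∀ g, 1 ≤ g → g ≤ w → g ∣ W := by
    intro g hg hgw
    rw [hWd]
    exact (Nat.dvd_factorial hg hgw).trans (dvd_pow_self _ (by omega))
  have hWp : ∀ p : ℕ, p.Prime → p ≤ w → p ^ (2 * t) ∣ W := by
    intro p hp hpw
    rw [hWd]
    exact (pow_dvd_pow_of_dvd (Nat.dvd_factorial hp.pos hpw) _).trans
      (pow_dvd_pow _ (by omega))
  obtain ⟨W₀, W₁, hW, hcop, hWa, hWb⟩ := split w₀ W hW0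
  have hW₀0 : W₀ ≠ 0 := fun h => hW0 (by rw [hW, h, zero_mul])
  have hW₁0 : W₁ ≠ 0 := fun h => hW0 (by rw [hW, h, mul_zero])
  have i0 : NeZero W₀ := ⟨hW₀0⟩
  have i1 : NeZero W₁ := ⟨hW₁0⟩
  have hWc : ∀ p : ℕ, p.Prime → p ≤ w₀ → p ^ (2 * t) ∣ W₀ := by
    intro p hp hpw
    have h1 := hWp p hp (hpw.trans hww)
    rw [hW] at h1
    have h2 : Nat.Coprime (p ^ (2 * t)) W₁ :=
      Nat.Coprime.pow_left _ ((Nat.Prime.coprime_iff_not_dvd hp).mpr fun h =>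
        absurd (hWb p hp h) (not_lt.mpr hpw))
    exact h2.dvd_of_dvd_mul_right h1
  obtain ⟨K, hK⟩ : ∃ K : ℕ, K = 2 ^ (4 * (s - 4)) * K₁ := ⟨_, rfl⟩
  have hK1 : 1 ≤ K := by
    rw [hK]
    have : 0 < 2 ^ (4 * (s - 4)) * K₁ := by positivity
    exact this
  obtain ⟨b₀, hb₀⟩ := hL W₀ W₁ w (9 * K) δ hcop hWa hWc hw4 (fun p hp hpw => by
    rw [← hW]
    exact hWg p hp.one_le hpw) hδ0 hδ1
  rw [← hW] at hb₀
  obtain ⟨A₁, hA₁⟩ := exists_nat_ge ((2 * (W : ℝ) + 2) / (2 * δ))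
  refine ⟨W₁, K, max (max 9 A₁) (b₀ ^ (4 * (s - 4))), i1, hWb, ?_⟩
  intro A hA
  have hA9 : 9 ≤ A := le_trans (le_trans (le_max_left _ _) (le_max_left _ _)) hA
  have hAA1 : A₁ ≤ A := le_trans (le_trans (le_max_right _ _) (le_max_left _ _)) hA
  have hAb : b₀ ^ (4 * (s - 4)) ≤ A := le_trans (le_max_right _ _) hA
  have hA1 : 1 ≤ A := by omega
  have hAr : (0 : ℝ) < A := by exact_mod_cast hA1
  have hk : 1 ≤ 4 * (s - 4) := by omega
  obtain ⟨b, hb1, hbl, hbu⟩ := size (4 * (s - 4)) K₁ A hk hK₁2 hA1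
  rw [← hK] at hbu
  have hbr : (1 : ℝ) ≤ b := by exact_mod_cast hb1
  have hbb : b₀ ≤ b := by
    by_contra h
    have h1 : b ^ (4 * (s - 4)) ≤ b₀ ^ (4 * (s - 4)) := Nat.pow_le_pow_left (by omega) _
    have h2 : K₁ * A ^ 2 ≤ A := (hbl.trans h1).trans hAb
    nlinarith
  -- b ^ 4 ≤ K A
  have hb4 : b ^ 4 ≤ K * A := by
    have h1 : (b ^ 4) ^ 2 ≤ (K * A) ^ 2 := by
      calc (b ^ 4) ^ 2 ≤ (b ^ 4) ^ (s - 4) :=
            Nat.pow_le_pow_right (Nat.one_le_pow _ _ hb1) (by omega)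
        _ = b ^ (4 * (s - 4)) := (pow_mul b 4 (s - 4)).symm
        _ ≤ K * A ^ 2 := hbu
        _ ≤ (K * A) ^ 2 := by
          rw [mul_pow]
          exact Nat.mul_le_mul_right _ (Nat.le_self_pow (by norm_num) K)
    exact (Nat.pow_le_pow_iff_left (by norm_num)).mp h1
  have hb9 : 9 * b ^ 4 ≤ 9 * K * A := by
    rw [mul_assoc]
    exact Nat.mul_le_mul_left _ hb4
  -- mu
  obtain ⟨μ, hμ⟩ : ∃ μ : ℝ, μ = (b : ℝ) ^ (4 * (s - 4)) / (2 * A) ^ 2 := ⟨_, rfl⟩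
  have hμ1 : (K₁ : ℝ) / 4 ≤ μ := by
    rw [hμ, le_div_iff₀ (by positivity)]
    have h1 : (K₁ : ℝ) * (A : ℝ) ^ 2 ≤ (b : ℝ) ^ (4 * (s - 4)) := by exact_mod_cast hbl
    calc (K₁ : ℝ) / 4 * (2 * A) ^ 2 = K₁ * (A : ℝ) ^ 2 := by ring
      _ ≤ _ := h1
  have hμ0 : 0 < μ := by
    refine lt_of_lt_of_le ?_ hμ1
    have : (0 : ℝ) < K₁ := by
      have : 0 < K₁ := by omega
      exact_mod_cast this
    positivity
  have hμk : 1 ≤ κ * μ := by
    have h1 : 4 / κ ≤ 4 * μ := by linarith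
    rw [div_le_iff₀ hκ0] at h1
    linarith
  -- T
  obtain ⟨x, hx⟩ : ∃ x : ℝ, x = 4 * δ * A * (b : ℝ) ^ 8 := ⟨_, rfl⟩
  have hx1 : 2 * (W : ℝ) + 2 ≤ x / 2 := by
    rw [div_le_iff₀ (by positivity)] at hA₁
    have h1 : (A₁ : ℝ) ≤ A := by exact_mod_cast hAA1
    have h2 : (1 : ℝ) ≤ (b : ℝ) ^ 8 := one_le_pow₀ hbr
    have h3 : 2 * (W : ℝ) + 2 ≤ A * (2 * δ) :=
      hA₁.trans (mul_le_mul_of_nonneg_right h1 (by positivity))
    have h4 : A * (2 * δ) ≤ A * (2 * δ) * (b : ℝ) ^ 8 := le_mul_of_one_le_right (by positivity) h2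
    rw [hx]
    linarith
  have hWr : (1 : ℝ) ≤ W := by
    have : 1 ≤ W := Nat.one_le_iff_ne_zero.mpr hW0
    exact_mod_cast this
  have hx0 : 0 ≤ x := by linarith
  obtain ⟨T, hT⟩ : ∃ T : ℕ, T = ⌊x⌋₊ := ⟨_, rfl⟩
  have hTu : (T : ℝ) ≤ x := by
    rw [hT]
    exact Nat.floor_le hx0
  have hTl : x / 2 ≤ T := by
    have h1 := Nat.lt_floor_add_one x
    rw [← hT] at h1
    linarith
  have hT0 : (0 : ℝ) < T := by linarith
  have hTW : 2 * W ≤ T := by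
    have h1 : (2 : ℝ) * W ≤ T := by linarith
    exact_mod_cast h1
  -- J, Q
  obtain ⟨N, hN⟩ : ∃ N : ℕ, N = 2 * b ^ 16 + md s * b ^ 8 + 1 := ⟨_, rfl⟩
  obtain ⟨J, hJ⟩ : ∃ J : ℕ, J = T * W * N := ⟨_, rfl⟩
  have hTpos : 1 ≤ T := by exact_mod_cast (Nat.cast_pos.mp hT0)
  have hWpos : 1 ≤ W := Nat.one_le_iff_ne_zero.mpr hW0
  have hJN : N ≤ J := by
    rw [hJ]
    exact Nat.le_mul_of_pos_left _ (Nat.mul_pos hTpos hWpos)
  have hJ1 : 1 ≤ J := le_trans (by rw [hN]; omega) hJN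
  have hJ16 : 2 * b ^ 16 ≤ J := le_trans (by rw [hN]; omega) hJN
  have hJ2 : 2 ≤ J := by
    have h1 : 1 ≤ b ^ 16 := Nat.one_le_pow _ _ hb1
    omega
  obtain ⟨Q, hQ⟩ : ∃ Q : ℕ, Q = 2 * A * J := ⟨_, rfl⟩
  have hQ0 : Q ≠ 0 := by
    rw [hQ]
    positivity
  have iQ : NeZero Q := ⟨hQ0⟩
  have hWQ : W ∣ Q := by
    rw [hQ, hJ]
    exact Dvd.intro (2 * A * T * N) (by ring)
  have hTQ : T ∣ Q := by
    rw [hQ, hJ]
    exact Dvd.intro (2 * A * W * N) (by ring)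
  have h2JQ : 2 * J ≤ Q := by
    rw [hQ]
    nlinarith
  have hQA : 2 * A < Q := by
    rw [hQ]
    nlinarith
  have hQB : 2 * md s * A * (b ^ 4) ^ 2 < Q := by
    rw [hQ]
    have h1 : md s * b ^ 8 < J := lt_of_lt_of_le (by rw [hN]; omega) hJN
    calc 2 * md s * A * (b ^ 4) ^ 2 = 2 * A * (md s * b ^ 8) := by ring
      _ < 2 * A * J := Nat.mul_lt_mul_of_pos_left h1 (by omega)
  have hQJ : (Q : ℝ) / J = 2 * A := by
    rw [hQ]
    push_cast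
    have : (J : ℝ) ≠ 0 := by
      have : J ≠ 0 := by omega
      exact_mod_cast this
    field_simp
  -- the exceptional set
  obtain ⟨E, hE⟩ : ∃ E : Finset (Fin 2 → Mon s → ℤ), E = (bx s A).filter fun c => RB d r A c ∧
    (∀ p : ℕ, p.Prime → p ≤ w₀ → PR t p c) ∧
      W₁ ^ (s - 2) ≤ 2 * am W₁ (cm (ZMod W₁) c) ∧ ¬ SZ K A c := ⟨_, rfl⟩
  rw [← hE]
  obtain ⟨M₀, hM₀⟩ : ∃ M₀ : ℝ, M₀ = η * δ ^ 2 * (b : ℝ) ^ (4 * s) / (W : ℝ) ^ 2 := ⟨_, rfl⟩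
  have hM₀0 : 0 ≤ M₀ := by
    rw [hM₀]
    positivity
  have h1 := hTRF s A (b ^ 4) J Q W T (GS s b (9 * K)) E M₀ hA1 hJ1 hQ hWpos hWQ hTQ hTW hQA hQB
    (Finset.filter_subset _ _) (by rw [hE]; exact Finset.filter_subset _ _) hM₀0 (by
      intro c hc
      rw [hE, Finset.mem_filter] at hc
      obtain ⟨hcb, hc1, hc2, hc3, hc4⟩ := hc
      constructor
      · intro x hxS
        by_contra hno
        push Not at hno
        apply hc4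
        have hx := (Finset.mem_filter.mp hxS).2
        refine ⟨x, ?_, hno, ?_⟩
        · intro h0
          obtain ⟨j, hj⟩ := hx.big
          rw [h0] at hj
          simp only [Pi.zero_apply, abs_zero, mul_zero] at hj
          have : (0 : ℤ) ≤ (b : ℤ) ^ 4 := by positivity
          omega
        · intro j
          calc |x j| ^ (s - 4) ≤ ((b : ℤ) ^ 4) ^ (s - 4) :=
                pow_le_pow_left₀ (abs_nonneg _) (hx.bd j) _
            _ = ((b ^ (4 * (s - 4)) : ℕ) : ℤ) := by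
              push_cast
              exact (pow_mul _ _ _).symm
            _ ≤ ((K * A ^ 2 : ℕ) : ℤ) := by exact_mod_cast hbu
            _ = K * (A : ℤ) ^ 2 := by push_cast; ring
      · have h2 := hb₀ b A hbb hA1 c hcb hc1 hc2 hc3
        rw [hM₀]
        refine h2.trans (Nat.cast_le.mpr (Finset.card_le_card ?_))
        intro x hxx
        rw [Finset.mem_filter] at hxx ⊢
        refine ⟨hxx.1, fun i => ⟨(hxx.2 i).1, ?_⟩⟩
        have h3 := (hxx.2 i).2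
        have h4 : 2 * |((qf (c i) x : ℤ) : ℝ)| ≤ T := by
          refine le_trans ?_ hTl
          rw [hx]
          linarith
        exact_mod_cast h4)
  have h2 := hVAR s Q J W T (GS s b (9 * K)) hJ1 h2JQ hWpos hWQ hTQ hTW
  have h3 := hS b (9 * K) A J Q W T w (2 * δ) hb1 hA9 hb9 hQ hJ16 hWpos hWQ hTQ hTW (by omega)
    hWg (by positivity) (by
      refine hTu.trans (le_of_eq ?_)
      rw [hx]
      ring)
  rw [hQJ] at h2
  rw [← hμ] at h3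
  have h4 : (E.card : ℝ) * ((4 / 10) ^ (2 * md s) *
      (((W : ℝ) / T) ^ 2 * (4 / 10) ^ 2 * M₀) ^ 2) ≤
      (2 * (A : ℝ)) ^ (2 * md s) * (C * (μ ^ 2 * (1 / w + 2 * δ) + μ)) :=
    (h1.trans h2).trans (mul_le_mul_of_nonneg_left h3 (by positivity))
  have h5 : η / 4 * μ ≤ ((W : ℝ) / T) ^ 2 * M₀ := by
    have hTx : (T : ℝ) ^ 2 ≤ x ^ 2 := pow_le_pow_left₀ hT0.le hTu 2
    have e1 : ((W : ℝ) / T) ^ 2 * M₀ = η * δ ^ 2 * (b : ℝ) ^ (4 * s) / (T : ℝ) ^ 2 := by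
      rw [hM₀]
      have : (W : ℝ) ≠ 0 := by positivity
      field_simp
    rw [e1, le_div_iff₀ (by positivity)]
    have e2 : η / 4 * μ * x ^ 2 = η * δ ^ 2 * (b : ℝ) ^ (4 * s) := by
      obtain ⟨n, rfl⟩ : ∃ n, s = n + 4 := ⟨s - 4, by omega⟩
      rw [Nat.add_sub_cancel] at hμ
      rw [hμ, hx]
      have : (A : ℝ) ≠ 0 := hAr.ne'
      field_simp
      ring
    rw [← e2]
    exact mul_le_mul_of_nonneg_left hTx (by positivity)
  have h6 : (η / 25 * μ) ^ 2 ≤ (((W : ℝ) / T) ^ 2 * (4 / 10) ^ 2 * M₀) ^ 2 := by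
    refine pow_le_pow_left₀ (by positivity) ?_ 2
    calc η / 25 * μ = (4 / 10) ^ 2 * (η / 4 * μ) := by ring
      _ ≤ (4 / 10) ^ 2 * (((W : ℝ) / T) ^ 2 * M₀) := mul_le_mul_of_nonneg_left h5 (by norm_num)
      _ = ((W : ℝ) / T) ^ 2 * (4 / 10) ^ 2 * M₀ := by ring
  have h7 : (E.card : ℝ) * ((4 / 10) ^ (2 * md s) * (η / 25 * μ) ^ 2) ≤
      (2 * (A : ℝ)) ^ (2 * md s) * (C * (μ ^ 2 * (1 / w + 2 * δ) + μ)) := by
    refine le_trans (mul_le_mul_of_nonneg_left (mul_le_mul_of_nonneg_left h6 (by positivity))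
      (Nat.cast_nonneg _)) h4
  have h8 : C * (μ ^ 2 * (1 / w + 2 * δ) + μ) ≤ C * (3 * κ) * μ ^ 2 := by
    have h9 : μ ≤ κ * μ ^ 2 := by
      calc μ = 1 * μ := (one_mul μ).symm
        _ ≤ κ * μ * μ := mul_le_mul_of_nonneg_right hμk hμ0.le
        _ = κ * μ ^ 2 := by ring
    have h10 : μ ^ 2 * (1 / w + 2 * δ) ≤ μ ^ 2 * (κ + κ) :=
      mul_le_mul_of_nonneg_left (add_le_add hwk hδ2) (by positivity)
    calc C * (μ ^ 2 * (1 / w + 2 * δ) + μ) ≤ C * (μ ^ 2 * (κ + κ) + κ * μ ^ 2) :=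
          mul_le_mul_of_nonneg_left (add_le_add h10 h9) hC.le
      _ = C * (3 * κ) * μ ^ 2 := by ring
  have h11 : C * (3 * κ) = (4 / 10) ^ (2 * md s) * (η / 25) ^ 2 * ε := by
    rw [hκ]
    field_simp
  rw [h11] at h8
  have h12 : (E.card : ℝ) * ((4 / 10) ^ (2 * md s) * (η / 25 * μ) ^ 2) ≤
      ε * (2 * (A : ℝ)) ^ (2 * md s) * ((4 / 10) ^ (2 * md s) * (η / 25 * μ) ^ 2) := by
    refine h7.trans ((mul_le_mul_of_nonneg_left h8 (by positivity)).trans (le_of_eq ?_))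
    ring
  have h13 : (E.card : ℝ) ≤ ε * (2 * (A : ℝ)) ^ (2 * md s) :=
    le_of_mul_le_mul_right h12 (by positivity)
  refine h13.trans (mul_le_mul_of_nonneg_left ?_ hε.le)
  exact pow_le_pow_left₀ (by positivity) (by linarith) _

end Pool.Agent.H32.RQ
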