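import Pool.Agent.H32.RQ.Smooth

/-!
Row RAT of the board hpq_modules (`MP_63b6b1_nt`): almost all smooth locally soluble pairs have a
rational zero.
-/

set_option autoImplicit false

open Finset Filter Pool.Agent.H32.RQ

namespace Pool.Agent.H32.RQ.RatZ

variable {s : ℕ}

theorem qf_cast (R : Type) [CommRing R] (c : Fin 2 → Mon s → ℤ) (i : Fin 2) (x : Fin s → ℤ) :
    qf (cm R c i) (fun j => (x j : R)) = ((qf (c i) x : ℤ) : R) := by
  unfold qf cm
  push_cast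
  rfl

theorem cast_ne (R : Type) [CommRing R] [CharZero R] (x : Fin s → ℤ) (hx : x ≠ 0) :
    (fun j => (x j : R)) ≠ 0 := by
  intro h
  apply hx
  funext j
  have h1 := congrFun h j
  simpa using h1

theorem ls_of_zero (c : Fin 2 → Mon s → ℤ)
    (h : ∃ x : Fin s → ℤ, x ≠ 0 ∧ ∀ i, qf (c i) x = 0) : LS c := by
  obtain ⟨x, hx, h0⟩ := h
  refine ⟨⟨fun j => (x j : ℝ), cast_ne ℝ x hx, fun i => ?_⟩, fun p _ =>
    ⟨fun j => (x j : ℚ_[p]), cast_ne ℚ_[p] x hx, fun i => ?_⟩⟩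
  · rw [qf_cast, h0 i, Int.cast_zero]
  · rw [qf_cast, h0 i, Int.cast_zero]

end Pool.Agent.H32.RQ.RatZ

namespace Pool.Agent.H32.RQ

open Pool.Agent.H32.RQ.RatZ

open Classical in
/-- RAT -/
theorem pf_RAT (hSMP : T_SMP) (hSZL : T_SZL) (hPOS : T_POS) (hHP : T_HP) (hCRD : T_CRD) :
    T_RAT := by
  intro s hs
  obtain ⟨P, hP, hPS⟩ := hSMP s (by omega)
  have hcard : ∀ A : ℕ, ((bx s A).card : ℝ) = (2 * (A : ℝ) + 1) ^ (2 * md s) := by
    intro A
    rw [(hCRD s).2 A, (hCRD s).1]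
    push_cast
    ring
  have hpos : ∀ A : ℕ, (0 : ℝ) < (bx s A).card := by
    intro A
    rw [hcard]
    positivity
  have hN : ∀ ε : ℝ, 0 < ε → ∃ A₀ : ℕ, ∀ A : ℕ, A₀ ≤ A →
      (((bx s A).filter fun c => ¬ Sm c).card : ℝ) ≤ ε * (bx s A).card := by
    intro ε hε
    obtain ⟨A₀, h⟩ := hSZL s P hP ε hε
    refine ⟨A₀, fun A hA => ?_⟩
    rw [hcard]
    refine le_trans (Nat.cast_le.mpr (Finset.card_le_card ?_)) (h A hA)
    intro c hc
    rw [Finset.mem_filter] at hc ⊢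
    refine ⟨hc.1, ?_⟩
    by_contra h0
    exact hc.2 (hPS c h0)
  obtain ⟨δ, hδ, A₁, hA₁⟩ := hPOS s hs
  have hZ : ∃ A₂ : ℕ, ∀ A : ℕ, A₂ ≤ A → δ / 2 * ((bx s A).card : ℝ) ≤
      (((bx s A).filter fun c => Sm c ∧ ∃ x : Fin s → ℤ, x ≠ 0 ∧ ∀ i, qf (c i) x = 0).card : ℝ) := by
    obtain ⟨A₃, hA₃⟩ := hN (δ / 2) (by positivity)
    refine ⟨max A₁ A₃, fun A hA => ?_⟩
    have h1 := hA₁ A (le_trans (le_max_left _ _) hA)
    have h2 := hA₃ A (le_trans (le_max_right _ _) hA)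
    rw [← hcard] at h1
    have h3 : (((bx s A).filter fun c => ∃ x : Fin s → ℤ, x ≠ 0 ∧ ∀ i, qf (c i) x = 0).card : ℝ) ≤
        (((bx s A).filter fun c => Sm c ∧ ∃ x : Fin s → ℤ, x ≠ 0 ∧
          ∀ i, qf (c i) x = 0).card : ℝ) + (((bx s A).filter fun c => ¬ Sm c).card : ℝ) := by
      have h4 : ((bx s A).filter fun c => ∃ x : Fin s → ℤ, x ≠ 0 ∧ ∀ i, qf (c i) x = 0) ⊆
          ((bx s A).filter fun c => Sm c ∧ ∃ x : Fin s → ℤ, x ≠ 0 ∧ ∀ i, qf (c i) x = 0) ∪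
            (bx s A).filter fun c => ¬ Sm c := by
        intro c hc
        rw [Finset.mem_filter] at hc
        by_cases hs : Sm c
        · exact Finset.mem_union_left _ (Finset.mem_filter.mpr ⟨hc.1, hs, hc.2⟩)
        · exact Finset.mem_union_right _ (Finset.mem_filter.mpr ⟨hc.1, hs⟩)
      have h5 := (Finset.card_le_card h4).trans (Finset.card_union_le _ _)
      exact_mod_cast h5
    linarith
  refine ⟨?_, ⟨δ / 2, by positivity, hZ⟩, ?_⟩
  · rw [Metric.tendsto_atTop]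
    intro ε hε
    obtain ⟨A₀, h⟩ := hN (ε / 2) (by positivity)
    refine ⟨A₀, fun A hA => ?_⟩
    rw [Real.dist_eq, sub_zero, abs_of_nonneg (by positivity), div_lt_iff₀ (hpos A)]
    have := h A hA
    have h1 := hpos A
    nlinarith
  · obtain ⟨A₂, hA₂⟩ := hZ
    rw [Metric.tendsto_atTop]
    intro ε hε
    obtain ⟨K, A₃, hA₃⟩ := hHP s hs (ε * (δ / 2) / 2) (by positivity)
    refine ⟨max A₂ A₃, fun A hA => ?_⟩
    have h1 := hA₂ A (le_trans (le_max_left _ _) hA)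
    have h2 := hA₃ A (le_trans (le_max_right _ _) hA)
    rw [← hcard] at h2
    have hb := hpos A
    obtain ⟨X, hX⟩ : ∃ X : ℕ, X = ((bx s A).filter fun c => Sm c ∧ LS c ∧
        ∃ x : Fin s → ℤ, x ≠ 0 ∧ ∀ i, qf (c i) x = 0).card := ⟨_, rfl⟩
    obtain ⟨Y, hY⟩ : ∃ Y : ℕ, Y = ((bx s A).filter fun c => Sm c ∧ LS c).card := ⟨_, rfl⟩
    rw [← hX, ← hY]
    have hXZ : (((bx s A).filter fun c => Sm c ∧
        ∃ x : Fin s → ℤ, x ≠ 0 ∧ ∀ i, qf (c i) x = 0).card : ℝ) ≤ X := by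
      rw [hX]
      refine Nat.cast_le.mpr (Finset.card_le_card ?_)
      intro c hc
      rw [Finset.mem_filter] at hc ⊢
      exact ⟨hc.1, hc.2.1, ls_of_zero c hc.2.2, hc.2.2⟩
    have hXY : (X : ℝ) ≤ Y := by
      rw [hX, hY]
      refine Nat.cast_le.mpr (Finset.card_le_card ?_)
      intro c hc
      rw [Finset.mem_filter] at hc ⊢
      exact ⟨hc.1, hc.2.1, hc.2.2.1⟩
    have hYX : (Y : ℝ) ≤ X + (((bx s A).filter fun c => LS c ∧ ¬ SZ K A c).card : ℝ) := by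
      have h4 : ((bx s A).filter fun c => Sm c ∧ LS c) ⊆
          ((bx s A).filter fun c => Sm c ∧ LS c ∧
            ∃ x : Fin s → ℤ, x ≠ 0 ∧ ∀ i, qf (c i) x = 0) ∪
            (bx s A).filter fun c => LS c ∧ ¬ SZ K A c := by
        intro c hc
        rw [Finset.mem_filter] at hc
        by_cases hz : SZ K A c
        · obtain ⟨x, hx, hx0, _⟩ := hz
          exact Finset.mem_union_left _ (Finset.mem_filter.mpr
            ⟨hc.1, hc.2.1, hc.2.2, x, hx, hx0⟩)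
        · exact Finset.mem_union_right _ (Finset.mem_filter.mpr ⟨hc.1, hc.2.2, hz⟩)
      have h5 := (Finset.card_le_card h4).trans (Finset.card_union_le _ _)
      rw [← hX, ← hY] at h5
      exact_mod_cast h5
    have hX0 : δ / 2 * ((bx s A).card : ℝ) ≤ X := h1.trans hXZ
    have hY0 : (0 : ℝ) < Y := lt_of_lt_of_le (by positivity) (hX0.trans hXY)
    have e : (X : ℝ) / Y - 1 = -((Y - X) / Y) := by
      field_simp
      ring
    rw [Real.dist_eq, e, abs_neg, abs_of_nonneg (div_nonneg (by linarith) hY0.le),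
      div_lt_iff₀ hY0]
    have h6 : ε * (δ / 2) / 2 * ((bx s A).card : ℝ) ≤ ε / 2 * Y := by
      have h7 : ε / 2 * (δ / 2 * ((bx s A).card : ℝ)) ≤ ε / 2 * Y :=
        mul_le_mul_of_nonneg_left (hX0.trans hXY) (by positivity)
      linarith
    have h8 : 0 < ε / 2 * Y := by positivity
    linarith

end Pool.Agent.H32.RQ
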