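import Pool.Agent.H20.RQ.AQ1
import Pool.Agent.H20.RQ.AQ2
import Pool.Agent.H56.RQ.AQ3
import Pool.Agent.H81.RQ.AQ4
import Pool.Agent.H13.RQ.BDI
import Pool.Agent.H67.RQ.BDS
import Pool.Agent.H19.RQ.CL2
import Pool.Agent.H19.RQ.CLS
import Pool.Agent.H98.RQ.CNT
import Pool.Agent.H23.RQ.CRD
import Pool.Agent.H67.RQ.CRT
import Pool.Agent.H80.RQ.CUB
import Pool.Agent.H19.RQ.DEP
import Pool.Agent.H44.RQ.DIA
import Pool.Agent.H80.RQ.DLT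
import Pool.Agent.H1.RQ.EXF
import Pool.Agent.H68.RQ.FIB
import Pool.Agent.H49.RQ.FJB
import Pool.Agent.H33.RQ.FJT
import Pool.Agent.H58.RQ.HEC
import Pool.Agent.H68.RQ.HEN
import Pool.Agent.H44.RQ.HP
import Pool.Agent.H37.RQ.KPB
import Pool.Agent.H72.RQ.KPL
import Pool.Agent.H32.RQ.LOC
import Pool.Agent.H32.RQ.MN
import Pool.Agent.H40.RQ.NEW
import Pool.Agent.H39.RQ.PA1
import Pool.Agent.H58.RQ.PAG
import Pool.Agent.H19.RQ.PAI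
import Pool.Agent.H49.RQ.PBD
import Pool.Agent.H47.RQ.PFX
import Pool.Agent.H94.RQ.PIG
import Pool.Agent.H14.RQ.PKP
import Pool.Agent.H36.RQ.PNB
import Pool.Agent.H61.RQ.POS
import Pool.Agent.H23.RQ.PS1
import Pool.Agent.H23.RQ.PS2
import Pool.Agent.H23.RQ.PS3
import Pool.Agent.H10.RQ.PUV
import Pool.Agent.H75.RQ.PXY
import Pool.Agent.H13.RQ.QPZ
import Pool.Agent.H32.RQ.RAT
import Pool.Agent.H58.RQ.RFX
import Pool.Agent.H13.RQ.RNB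
import Pool.Agent.H10.RQ.RUV
import Pool.Agent.H42.RQ.RZB
import Pool.Agent.H58.RQ.SEC
import Pool.Agent.H20.RQ.SIE
import Pool.Agent.H6.RQ.SMM
import Pool.Agent.H13.RQ.SMP
import Pool.Agent.H94.RQ.SPN
import Pool.Agent.H75.RQ.STR
import Pool.Agent.H37.RQ.SZL
import Pool.Agent.H14.RQ.TRB
import Pool.Agent.H26.RQ.TRF
import Pool.Agent.H1.RQ.VAR
import Pool.Agent.H75.RQ.WFN

/-!
Assembly of the rows of the board hpq_modules (`MP_63b6b1_nt`).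
-/

set_option autoImplicit false

namespace Pool.Agent.H32.RQ.All

open Pool.Agent.H32.RQ

theorem x_FJT : T_FJT := Pool.Agent.H33.RQ.pf_FJT

theorem x_EXF : T_EXF := Pool.Agent.H1.RQ.pf_EXF x_FJT

theorem x_CNT : T_CNT := Pool.Agent.H98.RQ.pf_CNT

theorem x_FJB : T_FJB := Pool.Agent.H49.RQ.pf_FJB

theorem x_KPL : T_KPL := Pool.Agent.H72.RQ.pf_KPL x_FJT

theorem x_FIB : T_FIB := Pool.Agent.H68.RQ.pf_FIB

theorem x_HEN : T_HEN := Pool.Agent.H68.RQ.pf_HEN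

theorem x_QPZ : T_QPZ := Pool.Agent.H13.RQ.pf_QPZ

theorem x_HEC : T_HEC := Pool.Agent.H58.RQ.pf_HEC x_HEN

theorem x_AQ1 : T_AQ1 := Pool.Agent.H20.RQ.pf_AQ1

theorem x_AQ2 : T_AQ2 := Pool.Agent.H20.RQ.pf_AQ2

theorem x_AQ3 : T_AQ3 := Pool.Agent.H56.RQ.pf_AQ3

theorem x_AQ4 : T_AQ4 := Pool.Agent.H81.RQ.pf_AQ4 x_AQ1 x_AQ2 x_AQ3

theorem x_CL2 : T_CL2 := Pool.Agent.H19.RQ.pf_CL2

theorem x_PIG : T_PIG := Pool.Agent.H94.RQ.pf_PIG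

theorem x_SPN : T_SPN := Pool.Agent.H94.RQ.pf_SPN x_PIG

theorem x_DIA : T_DIA := Pool.Agent.H44.RQ.pf_DIA x_SPN x_CL2 x_FJB

theorem x_CLS : T_CLS := Pool.Agent.H19.RQ.pf_CLS

theorem x_PA1 : T_PA1 := Pool.Agent.H39.RQ.pf_PA1

theorem x_PUV : T_PUV := Pool.Agent.H10.RQ.pf_PUV

theorem x_DLT : T_DLT := Pool.Agent.H80.RQ.pf_DLT

theorem x_KPB : T_KPB := Pool.Agent.H37.RQ.pf_KPB x_FJB

theorem x_PKP : T_PKP := Pool.Agent.H14.RQ.pf_PKP x_KPB x_FJB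

theorem x_PAI : T_PAI := Pool.Agent.H19.RQ.pf_PAI x_PA1

theorem x_PAG : T_PAG := Pool.Agent.H58.RQ.pf_PAG x_PAI

theorem x_SMM : T_SMM := Pool.Agent.H6.RQ.pf_SMM

theorem x_STR : T_STR := Pool.Agent.H75.RQ.pf_STR x_SPN

theorem x_PXY : T_PXY := Pool.Agent.H75.RQ.pf_PXY x_STR x_CLS x_CL2 x_CNT

theorem x_PBD : T_PBD := Pool.Agent.H49.RQ.pf_PBD x_PXY x_DLT x_PKP x_KPB x_FJB

theorem x_DEP : T_DEP := Pool.Agent.H19.RQ.pf_DEP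

theorem x_SEC : T_SEC := Pool.Agent.H58.RQ.pf_SEC x_PAG x_SMM x_PBD x_PKP x_DIA x_DEP

theorem x_TRB : T_TRB := Pool.Agent.H14.RQ.pf_TRB

theorem x_NEW : T_NEW := Pool.Agent.H40.RQ.pf_NEW

theorem x_CUB : T_CUB := Pool.Agent.H80.RQ.pf_CUB x_NEW

theorem x_BDI : T_BDI := Pool.Agent.H13.RQ.pf_BDI x_PAI

theorem x_VAR : T_VAR := Pool.Agent.H1.RQ.pf_VAR x_EXF x_KPB x_KPL x_FJB

theorem x_TRF : T_TRF := Pool.Agent.H26.RQ.pf_TRF x_FJB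

theorem x_CRT : T_CRT := Pool.Agent.H67.RQ.pf_CRT

theorem x_WFN : T_WFN := Pool.Agent.H75.RQ.pf_WFN x_HEC x_CRT

theorem x_SIE : T_SIE := Pool.Agent.H20.RQ.pf_SIE

theorem x_BDS : T_BDS := Pool.Agent.H67.RQ.pf_BDS

theorem x_LOC : T_LOC := Pool.Agent.H32.RQ.pf_LOC x_WFN x_CUB x_SIE x_BDS x_BDI

theorem x_MN : T_MN := Pool.Agent.H32.RQ.pf_MN x_VAR x_TRF x_SEC x_LOC

theorem x_PFX : T_PFX := Pool.Agent.H47.RQ.pf_PFX x_FIB x_PUV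

theorem x_PNB : T_PNB := Pool.Agent.H36.RQ.pf_PNB x_PFX x_TRB

theorem x_RUV : T_RUV := Pool.Agent.H10.RQ.pf_RUV

theorem x_RFX : T_RFX := Pool.Agent.H58.RQ.pf_RFX x_FIB x_RUV

theorem x_RNB : T_RNB := Pool.Agent.H13.RQ.pf_RNB x_RFX

theorem x_RZB : T_RZB := Pool.Agent.H42.RQ.pf_RZB

theorem x_HP : T_HP := Pool.Agent.H44.RQ.pf_HP x_MN x_AQ4 x_TRB x_PNB x_RNB x_RZB x_QPZ

theorem x_PS3 : T_PS3 := Pool.Agent.H23.RQ.pf_PS3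

theorem x_PS2 : T_PS2 := Pool.Agent.H23.RQ.pf_PS2

theorem x_CRD : T_CRD := Pool.Agent.H23.RQ.pf_CRD

theorem x_PS1 : T_PS1 := Pool.Agent.H23.RQ.pf_PS1

theorem x_POS : T_POS := Pool.Agent.H61.RQ.pf_POS x_MN x_AQ4 x_PS1 x_PS2 x_PS3

theorem x_SMP : T_SMP := Pool.Agent.H13.RQ.pf_SMP

theorem x_SZL : T_SZL := Pool.Agent.H37.RQ.pf_SZL

theorem x_RAT : T_RAT := Pool.Agent.H32.RQ.pf_RAT x_SMP x_SZL x_POS x_HP x_CRD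

end Pool.Agent.H32.RQ.All
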