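import Mathlib

/-!
# Pairs of quadratic forms: definitions

The Hasse principle for random pairs of integral quadratic forms in `s ≥ 6` variables
(`MP_63b6b1_nt`). The coefficients of a quadratic form are indexed by the monomials
`x_i x_l`, `i ≤ l`.
-/

set_option autoImplicit false

open Finset

namespace Pool.Agent.H32.RQ

/-! ### Quadratic forms -/

/-- the monomials of degree two in `s` variables -/
abbrev Mon (s : ℕ) : Type := {p : Fin s × Fin s // p.1 ≤ p.2}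

/-- the number of monomials -/
abbrev md (s : ℕ) : ℕ := Fintype.card (Mon s)

/-- the value of a monomial -/
def nu {R : Type} [CommRing R] {s : ℕ} (x : Fin s → R) (p : Mon s) : R := x p.1.1 * x p.1.2

/-- the value at `x` of the quadratic form with the coefficients `f` -/
def qf {R : Type} [CommRing R] {s : ℕ} (f : Mon s → R) (x : Fin s → R) : R :=
  ∑ p, f p * (x p.1.1 * x p.1.2)

/-- the partial derivative at `x` of the quadratic form with the coefficients `f` -/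
def dq {R : Type} [CommRing R] {s : ℕ} (f : Mon s → R) (x : Fin s → R) (j : Fin s) : R :=
  ∑ p, f p * ((if p.1.1 = j then x p.1.2 else 0) + (if p.1.2 = j then x p.1.1 else 0))

/-- the minors of the Jacobian matrix of a pair of quadratic forms -/
def jm {R : Type} [CommRing R] {s : ℕ} (F : Fin 2 → Mon s → R) (x : Fin s → R)
    (j l : Fin s) : R :=
  dq (F 0) x j * dq (F 1) x l - dq (F 0) x l * dq (F 1) x j

/-- the coefficients of the pair `c` in the ring `R` -/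
def cm (R : Type) [CommRing R] {s : ℕ} (c : Fin 2 → Mon s → ℤ) : Fin 2 → Mon s → R :=
  fun i p => (c i p : R)

/-- the pairs of integral quadratic forms with coefficients in `[-A, A]` -/
noncomputable def bx (s A : ℕ) : Finset (Fin 2 → Mon s → ℤ) :=
  Fintype.piFinset fun _ => Fintype.piFinset fun _ => Finset.Icc (-(A : ℤ)) A

/-- the integral vectors with coordinates in `[-B, B]` -/
noncomputable def vb (s B : ℕ) : Finset (Fin s → ℤ) := Fintype.piFinset fun _ => Finset.Icc (-(B : ℤ)) B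

/-- the pair has a nonzero zero over the reals and over every `p`-adic field -/
def LS {s : ℕ} (c : Fin 2 → Mon s → ℤ) : Prop :=
  (∃ x : Fin s → ℝ, x ≠ 0 ∧ ∀ i, qf (cm ℝ c i) x = 0) ∧
  ∀ (p : ℕ) [Fact p.Prime], ∃ x : Fin s → ℚ_[p], x ≠ 0 ∧ ∀ i, qf (cm ℚ_[p] c i) x = 0

/-- the pair has a nonzero integral zero `x` with `|x_j| ^ (s - 4) ≤ K A ^ 2` -/
def SZ {s : ℕ} (K A : ℕ) (c : Fin 2 → Mon s → ℤ) : Prop :=
  ∃ x : Fin s → ℤ, x ≠ 0 ∧ (∀ i, qf (c i) x = 0) ∧ ∀ j, |x j| ^ (s - 4) ≤ K * (A : ℤ) ^ 2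

/-! ### Good vectors -/

/-- the minors of two vectors -/
def mnr {R : Type} [CommRing R] {s : ℕ} (x y : Fin s → R) (i j : Fin s) : R :=
  x i * y j - x j * y i

/-- the coordinates generate the unit ideal -/
def Prm {R : Type} [CommRing R] {s : ℕ} (x : Fin s → R) : Prop := ∃ a : Fin s → R, ∑ i, a i * x i = 1

/-- `x` is not orthogonal to a small vector with at most three nonzero coordinates -/
def Sup {s : ℕ} (R : ℕ) (x : Fin s → ℤ) : Prop :=
  ∀ l : Fin s → ℤ, (Finset.univ.filter fun i => l i ≠ 0).card ≤ 3 → (∀ i, |l i| ≤ R) →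
    ∑ i, l i * x i = 0 → l = 0

/-- all vectors which are close to the line of `x` lie on the line of `x` -/
def Iso {s : ℕ} (D : ℕ) (x : Fin s → ℤ) : Prop :=
  ∀ z : Fin s → ℤ, (∀ i j, |mnr x z i j| ≤ D) → ∀ i j, mnr x z i j = 0

/-- good vectors of size `b ^ 4` -/
structure Gd {s : ℕ} (b c : ℕ) (x : Fin s → ℤ) : Prop where
  bd : ∀ i, |x i| ≤ (b : ℤ) ^ 4
  big : ∃ i, (b : ℤ) ^ 4 < 2 * |x i|
  prm : Prm x
  sup : Sup b x
  iso : Iso (c * b ^ 3) x

open Classical in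
/-- the good vectors -/
noncomputable def GS (s b c : ℕ) : Finset (Fin s → ℤ) := (vb s (b ^ 4)).filter (Gd b c)

/-- the greatest common divisor of the minors -/
def gm {s : ℕ} (x y : Fin s → ℤ) : ℕ :=
  Finset.univ.gcd fun p : Fin s × Fin s => (mnr x y p.1 p.2).natAbs

/-- the greatest minor -/
def dm {s : ℕ} (x y : Fin s → ℤ) : ℕ :=
  Finset.univ.sup fun p : Fin s × Fin s => (mnr x y p.1 p.2).natAbs

/-! ### The random model -/

section model

variable (Q : ℕ) [NeZero Q]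

/-- the Fejér weight -/
noncomputable def fj (J : ℕ) (u : ZMod Q) : ℝ :=
  ‖∑ j ∈ range J, ZMod.stdAddChar ((j : ZMod Q) * u)‖ ^ 2 / (J : ℝ) ^ 2

/-- the triangular function -/
noncomputable def tri (J : ℕ) (a : ZMod Q) : ℝ := max 0 (1 - |((a.valMinAbs : ℤ) : ℝ)| / J)

/-- the Fourier transform of the local indicator -/
noncomputable def kap (W T : ℕ) (j : ZMod Q) : ℝ :=
  ∑ a ∈ range W, tri Q (Q / T) (j - ((a * (Q / W) : ℕ) : ZMod Q))

/-- the local indicator -/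
noncomputable def lam (W T : ℕ) (v : ZMod Q) : ℝ :=
  if W ∣ v.val then (W : ℝ) / T * fj Q (Q / T) v else 0

/-- the correlation of two vectors at the frequencies `j`, `k` -/
noncomputable def rr {s : ℕ} (J : ℕ) (x y : Fin s → ℤ) (j k : ZMod Q) : ℝ :=
  ∏ p : Mon s, tri Q J (j * ((nu x p : ℤ) : ZMod Q) + k * ((nu y p : ℤ) : ZMod Q))

/-- the probability of two common zeros -/
noncomputable def pp {s : ℕ} (J : ℕ) (x y : Fin s → ℤ) : ℝ :=
  (∑ j : ZMod Q, ∑ k : ZMod Q, rr Q J x y j k) / (Q : ℝ) ^ 2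

/-- the frequencies at which the correlation does not vanish -/
noncomputable def zs {s : ℕ} (J : ℕ) (x y : Fin s → ℤ) : Finset (ZMod Q × ZMod Q) :=
  Finset.univ.filter fun q => ∀ p : Mon s,
    |(q.1 * ((nu x p : ℤ) : ZMod Q) + q.2 * ((nu y p : ℤ) : ZMod Q)).valMinAbs| < (J : ℤ)

/-- the contribution of the frequencies which are not local -/
noncomputable def pk {s : ℕ} (J W T : ℕ) (x y : Fin s → ℤ) : ℝ :=
  (∑ j : ZMod Q, ∑ k : ZMod Q, (1 - kap Q W T j) * rr Q J x y j k) / (Q : ℝ) ^ 2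

/-- the number of zeros in `S` -/
noncomputable def nn {s : ℕ} (S : Finset (Fin s → ℤ)) (F : Fin 2 → Mon s → ZMod Q) : ℝ :=
  ∑ x ∈ S, if ∀ i, qf (F i) (fun j => (x j : ZMod Q)) = 0 then 1 else 0

/-- the number of local zeros in `S` -/
noncomputable def nl {s : ℕ} (W T : ℕ) (S : Finset (Fin s → ℤ)) (F : Fin 2 → Mon s → ZMod Q) : ℝ :=
  ∑ x ∈ S, ∏ i, lam Q W T (qf (F i) (fun j => (x j : ZMod Q)))

/-- the weight of a pair -/
noncomputable def ww {s : ℕ} (J : ℕ) (F : Fin 2 → Mon s → ZMod Q) : ℝ := ∏ i, ∏ p, fj Q J (F i p)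

end model

/-! ### Local densities -/

open Classical in
/-- the number of primitive zeros modulo `M` -/
noncomputable def am {s : ℕ} (M : ℕ) [NeZero M] (F : Fin 2 → Mon s → ZMod M) : ℕ :=
  (Finset.univ.filter fun x : Fin s → ZMod M => Prm x ∧ ∀ i, qf (F i) x = 0).card

/-- the pair has modulo `p ^ (2 t)` a primitive zero with a minor not divisible by `p ^ t` -/
def PR {s : ℕ} (t p : ℕ) (c : Fin 2 → Mon s → ℤ) : Prop :=
  ∃ x : Fin s → ℤ, (∃ i, ¬ (p : ℤ) ∣ x i) ∧ (∀ i, (p : ℤ) ^ (2 * t) ∣ qf (c i) x) ∧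
    ∃ j l, ¬ (p : ℤ) ^ t ∣ jm c x j l

/-- the pair has modulo `p ^ t` a primitive zero with all minors divisible by `p ^ t` -/
def NP {s : ℕ} (t p : ℕ) (c : Fin 2 → Mon s → ℤ) : Prop :=
  ∃ x : Fin s → ℤ, (∃ i, ¬ (p : ℤ) ∣ x i) ∧ (∀ i, (p : ℤ) ^ t ∣ qf (c i) x) ∧
    ∀ j l, (p : ℤ) ^ t ∣ jm c x j l

/-- the pair has an approximate real zero of norm one, with a minor `≥ d A ^ 2` -/
def RB {s : ℕ} (d r : ℝ) (A : ℕ) (c : Fin 2 → Mon s → ℤ) : Prop :=
  ∃ x : Fin s → ℝ, (∀ j, |x j| ≤ 1) ∧ (∃ j, |x j| = 1) ∧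
    (∀ i, |qf (cm ℝ c i) x| ≤ r * A) ∧ ∃ j l, d * (A : ℝ) ^ 2 ≤ |jm (cm ℝ c) x j l|

/-- the pair has a real zero of norm one at which all the minors are `< d A ^ 2` -/
def RN {s : ℕ} (d : ℝ) (A : ℕ) (c : Fin 2 → Mon s → ℤ) : Prop :=
  ∃ x : Fin s → ℝ, (∀ j, |x j| ≤ 1) ∧ (∃ j, |x j| = 1) ∧
    (∀ i, qf (cm ℝ c i) x = 0) ∧ ∀ j l, |jm (cm ℝ c) x j l| < d * (A : ℝ) ^ 2

/-! ### The special pair `(x_0 x_1, x_0 x_2)` -/

/-- the coefficients of the special pair -/
def cs (s : ℕ) : Fin 2 → Mon s → ℤ := fun i p =>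
  if p.1.1.val = 0 ∧ p.1.2.val = i.val + 1 then 1 else 0

open Classical in
/-- the pairs which are close to the special pair, over the reals and modulo `V` -/
noncomputable def sp (s V A : ℕ) (r : ℝ) : Finset (Fin 2 → Mon s → ℤ) :=
  (bx s A).filter fun c => ∀ i p, (V : ℤ) ∣ c i p - cs s i p ∧
    |(c i p : ℝ) - A * cs s i p| ≤ r * A

end Pool.Agent.H32.RQ
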