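import Pool.Agent.H32.RQ.Targets

/-!
# Pairs of quadratic forms: smooth complete intersections

Almost all pairs of quadratic forms define a smooth complete intersection.
-/

set_option autoImplicit false

open Finset

namespace Pool.Agent.H32.RQ

/-- the zero scheme of the pair in projective space is smooth of codimension two over an algebraic
closure of the rational numbers: the gradients are linearly independent at every zero -/
def Sm {s : ℕ} (c : Fin 2 → Mon s → ℤ) : Prop :=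
  ∀ x : Fin s → AlgebraicClosure ℚ, x ≠ 0 → (∀ i, qf (cm (AlgebraicClosure ℚ) c i) x = 0) →
    LinearIndependent (AlgebraicClosure ℚ)
      ![dq (cm (AlgebraicClosure ℚ) c 0) x, dq (cm (AlgebraicClosure ℚ) c 1) x]

/-- (SMP) a polynomial condition for smoothness. -/
def T_SMP : Prop :=
  ∀ s : ℕ, 2 ≤ s → ∃ P : MvPolynomial (Fin 2 × Mon s) ℤ, P ≠ 0 ∧
    ∀ c : Fin 2 → Mon s → ℤ, MvPolynomial.eval (fun q : Fin 2 × Mon s => c q.1 q.2) P ≠ 0 → Sm c

open Classical in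
/-- (SZL) the zeros of a polynomial in the box are rare. -/
def T_SZL : Prop :=
  ∀ (s : ℕ) (P : MvPolynomial (Fin 2 × Mon s) ℤ), P ≠ 0 → ∀ ε : ℝ, 0 < ε → ∃ A₀ : ℕ, ∀ A : ℕ,
    A₀ ≤ A → (((bx s A).filter fun c =>
      MvPolynomial.eval (fun q : Fin 2 × Mon s => c q.1 q.2) P = 0).card : ℝ) ≤
      ε * (2 * (A : ℝ) + 1) ^ (2 * md s)

open Classical in
/-- (RAT) almost all smooth locally soluble pairs have a rational zero. -/
def T_RAT : Prop :=
  ∀ s : ℕ, 6 ≤ s →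
    Filter.Tendsto (fun A : ℕ => (((bx s A).filter fun c => ¬ Sm c).card : ℝ) / (bx s A).card)
      Filter.atTop (nhds 0) ∧
    (∃ δ : ℝ, 0 < δ ∧ ∃ A₀ : ℕ, ∀ A : ℕ, A₀ ≤ A → δ * ((bx s A).card : ℝ) ≤
      (((bx s A).filter fun c => Sm c ∧ ∃ x : Fin s → ℤ, x ≠ 0 ∧ ∀ i, qf (c i) x = 0).card : ℝ)) ∧
    Filter.Tendsto (fun A : ℕ => (((bx s A).filter fun c => Sm c ∧ LS c ∧
        ∃ x : Fin s → ℤ, x ≠ 0 ∧ ∀ i, qf (c i) x = 0).card : ℝ) /
      (((bx s A).filter fun c => Sm c ∧ LS c).card : ℝ)) Filter.atTop (nhds 1)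

end Pool.Agent.H32.RQ
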