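import Pool.Agent.H32.RQ.Defs

/-!
# Pairs of quadratic forms: the rows of the board

Every row is a closed statement; the deductions take the earlier rows as hypotheses.
-/

set_option autoImplicit false

open Finset

namespace Pool.Agent.H32.RQ

/-! ### The random model modulo `Q` -/

/-- (FJT) the Fourier transforms of the Fejér weight and of the triangular function. -/
def T_FJT : Prop :=
  ∀ (Q J : ℕ) [NeZero Q], 1 ≤ J → 2 * J ≤ Q →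
    (∀ a : ZMod Q, ∑ u, (fj Q J u : ℂ) * ZMod.stdAddChar (a * u) =
      (((Q : ℝ) / J * tri Q J a : ℝ) : ℂ)) ∧
    ∀ v : ZMod Q, ∑ j, (tri Q J j : ℂ) * ZMod.stdAddChar (j * v) = ((J * fj Q J v : ℝ) : ℂ)

/-- (FJB) bounds of the weights. -/
def T_FJB : Prop :=
  ∀ (Q J : ℕ) [NeZero Q], 1 ≤ J →
    (∀ u : ZMod Q, 0 ≤ fj Q J u ∧ fj Q J u ≤ 1) ∧
    (∀ a : ZMod Q, 0 ≤ tri Q J a ∧ tri Q J a ≤ 1) ∧
    ∀ u : ℤ, 2 * (J : ℤ) * |u| ≤ Q → 4 / 10 ≤ fj Q J (u : ZMod Q)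

/-- (KPB) bounds of the function `kap`. -/
def T_KPB : Prop :=
  ∀ (Q W T : ℕ) [NeZero Q], 1 ≤ W → W ∣ Q → T ∣ Q → 2 * W ≤ T →
    (∀ j : ZMod Q, 0 ≤ kap Q W T j ∧ kap Q W T j ≤ 1) ∧
    ∀ (a n : ℤ) (j : ZMod Q), j = ((n + a * ((Q / W : ℕ) : ℤ) : ℤ) : ZMod Q) →
      1 - |(n : ℝ)| * T / Q ≤ kap Q W T j

/-- (KPL) the Fourier expansion of the local indicator. -/
def T_KPL : Prop :=
  ∀ (Q W T : ℕ) [NeZero Q], 1 ≤ W → W ∣ Q → T ∣ Q → 2 * W ≤ T → ∀ v : ZMod Q,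
    (lam Q W T v : ℂ) = (Q : ℂ)⁻¹ * ∑ j : ZMod Q, (kap Q W T j : ℂ) * ZMod.stdAddChar (j * v)

/-- (EXF) the expectation of a character over the quadratic forms. -/
def T_EXF : Prop :=
  ∀ (s Q J : ℕ) [NeZero Q] (x y : Fin s → ℤ) (j k : ZMod Q), 1 ≤ J → 2 * J ≤ Q →
    ∑ f : Mon s → ZMod Q, ((∏ p, fj Q J (f p) : ℝ) : ℂ) *
      ZMod.stdAddChar (j * qf f (fun i => (x i : ZMod Q)) + k * qf f (fun i => (y i : ZMod Q))) =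
      ((((Q : ℝ) / J) ^ md s * rr Q J x y j k : ℝ) : ℂ)

/-- (VAR) the second moment of the difference. -/
def T_VAR : Prop :=
  ∀ (s Q J W T : ℕ) [NeZero Q] (S : Finset (Fin s → ℤ)), 1 ≤ J → 2 * J ≤ Q → 1 ≤ W → W ∣ Q →
    T ∣ Q → 2 * W ≤ T →
    ∑ F : Fin 2 → Mon s → ZMod Q, ww Q J F * (nn Q S F - nl Q W T S F) ^ 2 ≤
      ((Q : ℝ) / J) ^ (2 * md s) * ∑ x ∈ S, ∑ y ∈ S, 2 * pk Q J W T x y * pp Q J x y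

open Classical in
/-- (TRF) from the random model to the box. -/
def T_TRF : Prop :=
  ∀ (s A B J Q W T : ℕ) [NeZero Q] (S : Finset (Fin s → ℤ)) (E : Finset (Fin 2 → Mon s → ℤ))
    (M₀ : ℝ), 1 ≤ A → 1 ≤ J → Q = 2 * A * J → 1 ≤ W → W ∣ Q → T ∣ Q → 2 * W ≤ T →
    2 * A < Q → 2 * md s * A * B ^ 2 < Q → S ⊆ vb s B → E ⊆ bx s A → 0 ≤ M₀ →
    (∀ c ∈ E, (∀ x ∈ S, ∃ i, qf (c i) x ≠ 0) ∧
      M₀ ≤ ((S.filter fun x => ∀ i, (W : ℤ) ∣ qf (c i) x ∧ 2 * |qf (c i) x| ≤ T).card : ℝ)) →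
    (E.card : ℝ) * ((4 / 10) ^ (2 * md s) * (((W : ℝ) / T) ^ 2 * (4 / 10) ^ 2 * M₀) ^ 2) ≤
      ∑ F : Fin 2 → Mon s → ZMod Q, ww Q J F * (nn Q S F - nl Q W T S F) ^ 2

/-! ### The structure of the correlations -/

/-- (PIG) two pigeonholes. -/
def T_PIG : Prop :=
  ∀ (B R : ℕ) (x : Fin 3 → ℤ), 1 ≤ R → (∀ i, |x i| ≤ B) →
    (∀ l : Fin 3 → ℤ, (∀ i, |l i| ≤ R) → ∑ i, l i * x i = 0 → l = 0) →
    ∃ l l' : Fin 3 → ℤ, (∀ i, |l i| * R ≤ 3 * B ∧ |l' i| * R ≤ 3 * B) ∧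
      ∑ i, l i * x i = 0 ∧ ∑ i, l' i * x i = 0 ∧ ∃ i j, mnr l l' i j ≠ 0

/-- (SPN) the orthogonal lattice is generated, up to finite index, by small vectors. -/
def T_SPN : Prop :=
  ∀ (s B R : ℕ) (x : Fin s → ℤ), 3 ≤ s → 1 ≤ R → (∀ i, |x i| ≤ B) → Sup R x →
    ∀ φ : (Fin s → ℤ) →+ ℤ,
      (∀ l : Fin s → ℤ, (Finset.univ.filter fun i => l i ≠ 0).card ≤ 3 →
        (∀ i, |l i| * R ≤ 3 * B) → ∑ i, l i * x i = 0 → φ l = 0) →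
      ∀ i j, φ (Pi.single j (x i) - Pi.single i (x j)) = 0

/-- (STR) the structure lemma. -/
def T_STR : Prop :=
  ∀ (s b c : ℕ) (x y : Fin s → ℤ) (H θ φ : ℝ) (m : Fin s → Fin s → ℤ), 3 ≤ s → 1 ≤ b →
    Gd b c x → Gd b c y → dm x y ≠ 0 → 0 < H → 18 * (b : ℝ) ^ 4 ≤ c * H →
    (∀ i l, m i l = m l i) → (∀ i l, |θ * x i * x l + φ * y i * y l - m i l| < 1 / H) →
    ∃ α β : ℚ, ∀ i l, (m i l : ℚ) = α * x i * x l + β * y i * y l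

/-- (CLS) the denominators. -/
def T_CLS : Prop :=
  ∀ (s : ℕ) (x y : Fin s → ℤ) (α β : ℚ), Prm x → Prm y → dm x y ≠ 0 →
    (∀ i l, ∃ m : ℤ, (m : ℚ) = α * x i * x l + β * y i * y l) →
    (∃ a : ℤ, (gm x y : ℚ) * α = a) ∧ ∃ a : ℤ, (gm x y : ℚ) * β = a

/-- (CL2) the denominator for one vector. -/
def T_CL2 : Prop :=
  ∀ (s : ℕ) (x : Fin s → ℤ) (α : ℚ), Prm x → (∀ i l, ∃ m : ℤ, (m : ℚ) = α * x i * x l) →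
    ∃ a : ℤ, α = a

/-- (CNT) lattice points in a parallelogram. -/
def T_CNT : Prop :=
  ∀ (a b a' b' : ℤ) (Δ J : ℕ) (u v : ℝ), Δ = (a * b' - a' * b).natAbs → 1 ≤ Δ → Δ ≤ J →
    {q : ℤ × ℤ | |(q.1 * a + q.2 * b : ℝ) - u| < J ∧ |(q.1 * a' + q.2 * b' : ℝ) - v| < J}.Finite ∧
    ({q : ℤ × ℤ | |(q.1 * a + q.2 * b : ℝ) - u| < J ∧
      |(q.1 * a' + q.2 * b' : ℝ) - v| < J}.ncard : ℝ) * Δ ≤ 9 * (J : ℝ) ^ 2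

/-- (DLT) a large minor of the squares. -/
def T_DLT : Prop :=
  ∀ (s B : ℕ) (x y : Fin s → ℤ), (∀ i, |x i| ≤ B) → (∀ i, |y i| ≤ B) →
    (∃ i, (B : ℤ) < 2 * |x i|) → (∃ i, (B : ℤ) < 2 * |y i|) →
    ∃ p q : Mon s, B ^ 2 * dm x y ≤ 64 * (nu x p * nu y q - nu x q * nu y p).natAbs

/-- (PXY) the frequencies of the correlation. -/
def T_PXY : Prop :=
  ∀ (s b c A J Q W : ℕ) [NeZero Q] (x y : Fin s → ℤ) (p q : Mon s) (Δ : ℕ), 3 ≤ s → 1 ≤ b →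
    1 ≤ A → 9 * b ^ 4 ≤ c * A → Q = 2 * A * J → 1 ≤ W → W ∣ Q → Gd b c x → Gd b c y →
    dm x y ≠ 0 → Δ = (nu x p * nu y q - nu x q * nu y p).natAbs → 1 ≤ Δ → Δ ≤ J →
    ((zs Q J x y).card : ℝ) * Δ ≤ 9 * gm x y * (J : ℝ) ^ 2 ∧
    (gm x y ∣ W → ∀ z ∈ zs Q J x y, ∃ a n : ℤ,
      z.1 = ((n + a * ((Q / W : ℕ) : ℤ) : ℤ) : ZMod Q) ∧ |n| * Δ ≤ 2 * J * (b : ℤ) ^ 8)

/-- (PKP) the trivial bounds. -/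
def T_PKP : Prop :=
  ∀ (s Q J W T : ℕ) [NeZero Q] (x y : Fin s → ℤ), 1 ≤ J → 1 ≤ W → W ∣ Q → T ∣ Q → 2 * W ≤ T →
    0 ≤ pk Q J W T x y ∧ pk Q J W T x y ≤ pp Q J x y

/-- (PBD) the bounds for independent vectors. -/
def T_PBD : Prop :=
  ∀ (s b c A J Q W T : ℕ) [NeZero Q] (x y : Fin s → ℤ), 3 ≤ s → 1 ≤ b → 1 ≤ A →
    9 * b ^ 4 ≤ c * A → Q = 2 * A * J → 2 * b ^ 16 ≤ J → 1 ≤ W → W ∣ Q → T ∣ Q → 2 * W ≤ T →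
    Gd b c x → Gd b c y → dm x y ≠ 0 →
    pp Q J x y * ((2 * (A : ℝ)) ^ 2 * (b : ℝ) ^ 8 * dm x y) ≤ 576 * gm x y ∧
    (gm x y ∣ W → pk Q J W T x y * ((2 * (A : ℝ)) ^ 2 * (b : ℝ) ^ 8 * dm x y) *
      (2 * A * dm x y) ≤ 576 * gm x y * (128 * T))

/-- (DIA) the bound for dependent vectors. -/
def T_DIA : Prop :=
  ∀ (s b c A J Q : ℕ) [NeZero Q] (x y : Fin s → ℤ), 3 ≤ s → 1 ≤ b → 9 ≤ A →
    9 * b ^ 4 ≤ c * A → Q = 2 * A * J → b ^ 8 ≤ J → Gd b c x → (y = x ∨ y = -x) →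
    pp Q J x y * (2 * A * (b : ℝ) ^ 8) ≤ 9

/-- (DEP) dependent primitive vectors. -/
def T_DEP : Prop :=
  ∀ (s : ℕ) (x y : Fin s → ℤ), Prm x → Prm y → dm x y = 0 → y = x ∨ y = -x

/-! ### Counting pairs of vectors -/

/-- (PA1) a count of pairs. -/
def T_PA1 : Prop :=
  ∀ (a b : ℤ) (D : ℕ), a ≠ 0 → Int.gcd a b ≤ D →
    {q : ℤ × ℤ | |q.1| ≤ |a| ∧ |a * q.2 - b * q.1| ≤ D}.Finite ∧
    {q : ℤ × ℤ | |q.1| ≤ |a| ∧ |a * q.2 - b * q.1| ≤ D}.ncard ≤ 9 * D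

/-- (PAI) the number of pairs with small minors. -/
def T_PAI : Prop :=
  ∀ (s : ℕ) (i : Fin s) (B D : ℕ),
    {q : (Fin s → ℤ) × (Fin s → ℤ) | q.1 i ≠ 0 ∧ |q.1 i| ≤ B ∧ (∀ j, |q.1 j| ≤ |q.1 i|) ∧
      0 ≤ q.2 i ∧ q.2 i < |q.1 i| ∧ (∀ j, |mnr q.1 q.2 i j| ≤ D) ∧
      ∃ j, mnr q.1 q.2 i j ≠ 0}.Finite ∧
    {q : (Fin s → ℤ) × (Fin s → ℤ) | q.1 i ≠ 0 ∧ |q.1 i| ≤ B ∧ (∀ j, |q.1 j| ≤ |q.1 i|) ∧
      0 ≤ q.2 i ∧ q.2 i < |q.1 i| ∧ (∀ j, |mnr q.1 q.2 i j| ≤ D) ∧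
      ∃ j, mnr q.1 q.2 i j ≠ 0}.ncard ≤ 2 * B ^ 2 * (9 * D) ^ (s - 1)

/-- (PAG) the number of pairs of good vectors with small minors divisible by `g`. -/
def T_PAG : Prop :=
  ∀ (s b c g D : ℕ), 1 ≤ s → 1 ≤ b → 1 ≤ g →
    (((GS s b c ×ˢ GS s b c).filter fun q => dm q.1 q.2 ≠ 0 ∧ g ∣ gm q.1 q.2 ∧
      dm q.1 q.2 ≤ D).card : ℝ) ≤ 10 * s * (b : ℝ) ^ 8 * (9 * ((D : ℝ) / g)) ^ (s - 1)

/-- (SMM) the sum over the pairs. -/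
def T_SMM : Prop :=
  ∀ s : ℕ, 6 ≤ s → ∃ C : ℝ, 0 < C ∧ ∀ (ι : Type) (P : Finset ι) (G D : ι → ℕ) (M W w : ℕ)
    (C₀ κ : ℝ), 0 ≤ C₀ → 0 ≤ κ → 1 ≤ w → (∀ g, 1 ≤ g → g ≤ w → g ∣ W) →
    (∀ i ∈ P, 1 ≤ G i ∧ G i ≤ D i ∧ D i ≤ M) →
    (∀ g D' : ℕ, 1 ≤ g → ((P.filter fun i => G i = g ∧ D i ≤ D').card : ℝ) ≤
      C₀ * ((D' : ℝ) / g) ^ (s - 1)) →
    ∑ i ∈ P, (G i : ℝ) ^ 2 / (D i : ℝ) ^ 2 * (if G i ∣ W then κ / D i else 1) ≤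
      C * C₀ * ((M : ℝ) ^ (s - 3) / w + κ * (M : ℝ) ^ (s - 4))

open Classical in
/-- (BDS) the vectors with a small relation are rare. -/
def T_BDS : Prop :=
  ∀ s B R : ℕ, ((vb s B).filter fun x => ¬ Sup R x).card ≤
    s ^ 3 * (2 * R + 1) ^ 3 * (2 * B + 1) ^ (s - 1)

open Classical in
/-- (BDI) the vectors which are not isolated are rare. -/
def T_BDI : Prop :=
  ∀ s B D : ℕ, ((vb s B).filter fun x => ¬ Iso D x).card ≤ s * (2 * B ^ 2 * (9 * D) ^ (s - 1))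

/-- (SEC) the second moment. -/
def T_SEC : Prop :=
  ∀ s : ℕ, 6 ≤ s → ∃ C : ℝ, 0 < C ∧ ∀ (b c A J Q W T w : ℕ) [NeZero Q] (δ : ℝ), 1 ≤ b →
    9 ≤ A → 9 * b ^ 4 ≤ c * A → Q = 2 * A * J → 2 * b ^ 16 ≤ J → 1 ≤ W → W ∣ Q → T ∣ Q →
    2 * W ≤ T → 1 ≤ w → (∀ g, 1 ≤ g → g ≤ w → g ∣ W) → 0 ≤ δ →
    (T : ℝ) ≤ δ * (2 * A * (b : ℝ) ^ 8) →
    ∑ x ∈ GS s b c, ∑ y ∈ GS s b c, 2 * pk Q J W T x y * pp Q J x y ≤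
      C * (((b : ℝ) ^ (4 * (s - 4)) / (2 * A) ^ 2) ^ 2 * (1 / w + δ) +
        (b : ℝ) ^ (4 * (s - 4)) / (2 * A) ^ 2)

/-! ### Densities modulo `M` -/

/-- (AQ1) the number of the forms which vanish at two vectors. -/
def T_AQ1 : Prop :=
  ∀ (s M : ℕ) [NeZero M] (x y : Fin s → ZMod M),
    (Finset.univ.filter fun f : Mon s → ZMod M => qf f x = 0 ∧ qf f y = 0).card * M ^ 2 =
      M ^ md s * (Finset.univ.filter fun q : ZMod M × ZMod M =>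
        ∀ p : Mon s, q.1 * nu x p + q.2 * nu y p = 0).card

open Classical in
/-- (AQ2) the sum of the squares of the correlations. -/
def T_AQ2 : Prop :=
  ∀ (s M : ℕ) [NeZero M] (x : Fin s → ZMod M), Prm x →
    ∑ y ∈ Finset.univ.filter (fun y : Fin s → ZMod M => Prm y),
      ((Finset.univ.filter fun q : ZMod M × ZMod M =>
        ∀ p : Mon s, q.1 * nu x p + q.2 * nu y p = 0).card : ℝ) ^ 2 ≤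
      (M : ℝ) ^ s * ∑ h ∈ M.divisors, (h : ℝ) ^ 3 / (h : ℝ) ^ s

open Classical in
/-- (AQ3) the number of the primitive vectors. -/
def T_AQ3 : Prop :=
  ∀ (s M : ℕ) [NeZero M], (M : ℝ) ^ s * (1 - ∑ p ∈ M.primeFactors, 1 / (p : ℝ) ^ s) ≤
    ((Finset.univ.filter fun x : Fin s → ZMod M => Prm x).card : ℝ)

/-- (AQ4) for most pairs the density modulo `M` is at least one half. -/
def T_AQ4 : Prop :=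
  ∀ s : ℕ, 6 ≤ s → ∃ C : ℝ, 0 < C ∧ ∀ (M w₀ : ℕ) [NeZero M], 1 ≤ w₀ →
    (∀ p : ℕ, p.Prime → p ∣ M → w₀ < p) →
    ((Finset.univ.filter fun F : Fin 2 → Mon s → ZMod M => 2 * am M F < M ^ (s - 2)).card : ℝ) *
      (w₀ : ℝ) ^ 2 ≤ C * (M : ℝ) ^ (2 * md s)

/-- (TRB) from the residues to the box. -/
def T_TRB : Prop :=
  ∀ (s A M : ℕ) [NeZero M] (E : Finset (Fin 2 → Mon s → ZMod M)), M ≤ 2 * A + 1 →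
    ((bx s A).filter fun c => cm (ZMod M) c ∈ E).card * M ^ (2 * md s) ≤
      2 ^ (2 * md s) * (2 * A + 1) ^ (2 * md s) * E.card

/-- (FIB) counting with fibres. -/
def T_FIB : Prop :=
  ∀ (α : Type) [DecidableEq α] (s k : ℕ) (X : Finset α) (P : Finset (Mon s))
    (E : Finset (Fin 2 → Mon s → α)), (∀ c ∈ E, ∀ i p, c i p ∈ X) →
    (∀ c : Fin 2 → Mon s → α, (E.filter fun e => ∀ i, ∀ p, p ∉ P → e i p = c i p).card ≤ k) →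
    E.card ≤ k * X.card ^ (2 * (md s - P.card))

/-! ### Bad pairs modulo a prime power -/

/-- (PUV) the number of the pairs of proportional vectors modulo a prime power. -/
def T_PUV : Prop :=
  ∀ (n p t : ℕ) [NeZero (p ^ t)], 1 ≤ n → p.Prime →
    (Finset.univ.filter fun q : (Fin n → ZMod (p ^ t)) × (Fin n → ZMod (p ^ t)) =>
      ∀ j l, q.1 j * q.2 l = q.1 l * q.2 j).card ≤ 2 * (p ^ t) ^ (n + 1)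

/-- (PFX) the number of the pairs which are bad at a given vector. -/
def T_PFX : Prop :=
  ∀ (s p t : ℕ) [NeZero (p ^ t)] (i₀ : Fin s) (x : Fin s → ZMod (p ^ t)), 2 ≤ s → p.Prime →
    x i₀ = 1 →
    (Finset.univ.filter fun F : Fin 2 → Mon s → ZMod (p ^ t) =>
      (∀ i, qf (F i) x = 0) ∧ ∀ j l, jm F x j l = 0).card ≤ 2 * (p ^ t) ^ (2 * md s - s)

open Classical in
/-- (PNB) the pairs which are bad at `p` are rare. -/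
def T_PNB : Prop :=
  ∀ s p t A : ℕ, 2 ≤ s → p.Prime → p ^ t ≤ 2 * A + 1 →
    ((bx s A).filter fun c => NP t p c).card * p ^ t ≤
      2 ^ (2 * md s) * (2 * s) * (2 * A + 1) ^ (2 * md s)

/-- (QPZ) `p`-adic zeros. -/
def T_QPZ : Prop :=
  ∀ (s p t : ℕ) [Fact p.Prime] (c : Fin 2 → Mon s → ℤ),
    (∃ x : Fin s → ℚ_[p], x ≠ 0 ∧ ∀ i, qf (cm ℚ_[p] c i) x = 0) → PR t p c ∨ NP t p c

/-- (HEN) Hensel's lemma for two quadratic forms. -/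
def T_HEN : Prop :=
  ∀ (s p τ n : ℕ) (c : Fin 2 → Mon s → ℤ) (x : Fin s → ℤ) (a b : Fin s), p.Prime →
    (p : ℤ) ^ τ ∣ jm c x a b → ¬ (p : ℤ) ^ (τ + 1) ∣ jm c x a b →
    (∀ i, (p : ℤ) ^ (2 * τ + 1) ∣ qf (c i) x) →
    ∃ y : Fin s → ℤ, (∀ j, j ≠ a → j ≠ b → y j = x j) ∧ (∀ j, (p : ℤ) ^ (τ + 1) ∣ y j - x j) ∧
      ∀ i, (p : ℤ) ^ n ∣ qf (c i) y

/-- (HEC) a lower bound for the density modulo a prime power. -/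
def T_HEC : Prop :=
  ∀ (s p t k : ℕ) [NeZero (p ^ k)] (c : Fin 2 → Mon s → ℤ), p.Prime → 2 * t ≤ k → PR t p c →
    p ^ ((k - 2 * t) * (s - 2)) ≤ am (p ^ k) (cm (ZMod (p ^ k)) c)

/-- (CRT) the densities are multiplicative. -/
def T_CRT : Prop :=
  ∀ (s M N : ℕ) [NeZero M] [NeZero N] [NeZero (M * N)] (c : Fin 2 → Mon s → ℤ),
    Nat.Coprime M N → am (M * N) (cm (ZMod (M * N)) c) =
      am M (cm (ZMod M) c) * am N (cm (ZMod N) c)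

/-- (WFN) a lower bound for the density modulo `W`. -/
def T_WFN : Prop :=
  ∀ s t w₀ : ℕ, ∃ η : ℝ, 0 < η ∧ ∀ (W₀ W₁ : ℕ) [NeZero W₀] [NeZero W₁] [NeZero (W₀ * W₁)]
    (c : Fin 2 → Mon s → ℤ), Nat.Coprime W₀ W₁ → (∀ p : ℕ, p.Prime → p ∣ W₀ → p ≤ w₀) →
    (∀ p : ℕ, p.Prime → p ≤ w₀ → p ^ (2 * t) ∣ W₀) → (∀ p : ℕ, p.Prime → p ≤ w₀ → PR t p c) →
    W₁ ^ (s - 2) ≤ 2 * am W₁ (cm (ZMod W₁) c) →
    η * ((W₀ * W₁ : ℕ) : ℝ) ^ (s - 2) ≤ (am (W₀ * W₁) (cm (ZMod (W₀ * W₁)) c) : ℝ)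

/-! ### The real place -/

/-- (RUV) the number of the pairs of nearly proportional vectors. -/
def T_RUV : Prop :=
  ∀ (n : ℕ) (K : ℝ), 2 ≤ n → 1 ≤ K → ∃ C : ℝ, 0 < C ∧ ∀ (A N : ℕ), 1 ≤ N → C * N ≤ A →
    ∀ a b : Fin n → ℝ, (∀ j, |a j| ≤ K * A) → (∀ j, |b j| ≤ K * A) →
    ({q : (Fin n → ℤ) × (Fin n → ℤ) | (∀ j, |q.1 j| ≤ A ∧ |q.2 j| ≤ A) ∧
      ∀ j l, |(q.1 j + a j) * (q.2 l + b l) - (q.1 l + a l) * (q.2 j + b j)| ≤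
        K * (A : ℝ) ^ 2 / N}.ncard : ℝ) * (N : ℝ) ^ (n - 1) ≤ C * (A : ℝ) ^ (2 * n)

open Classical in
/-- (RFX) the number of the pairs which are bad at a given real vector. -/
def T_RFX : Prop :=
  ∀ (s : ℕ) (K : ℝ), 3 ≤ s → 1 ≤ K → ∃ C : ℝ, 0 < C ∧ ∀ (A N : ℕ), 1 ≤ N → C * N ≤ A →
    ∀ (i₀ : Fin s) (x : Fin s → ℝ), x i₀ = 1 → (∀ j, |x j| ≤ 1) →
    (((bx s A).filter fun c => (∀ i, |qf (cm ℝ c i) x| ≤ K * A / N) ∧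
      ∀ j l, |jm (cm ℝ c) x j l| ≤ K * (A : ℝ) ^ 2 / N).card : ℝ) * (N : ℝ) ^ s ≤
      C * (2 * (A : ℝ) + 1) ^ (2 * md s)

open Classical in
/-- (RNB) the pairs which are bad at the real place are rare. -/
def T_RNB : Prop :=
  ∀ s : ℕ, 3 ≤ s → ∃ C : ℝ, 0 < C ∧ ∀ d : ℝ, 0 < d → d ≤ 1 → ∃ A₀ : ℕ, ∀ A : ℕ, A₀ ≤ A →
    (((bx s A).filter fun c => RN d A c).card : ℝ) ≤ C * d * (2 * (A : ℝ) + 1) ^ (2 * md s)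

/-- (RZB) real zeros. -/
def T_RZB : Prop :=
  ∀ (s A : ℕ) (d : ℝ) (c : Fin 2 → Mon s → ℤ),
    (∃ x : Fin s → ℝ, x ≠ 0 ∧ ∀ i, qf (cm ℝ c i) x = 0) → RB d 0 A c ∨ RN d A c

/-- (NEW) the implicit function theorem for two quadratic forms. -/
def T_NEW : Prop :=
  ∀ (s : ℕ) (d : ℝ), 0 < d → ∃ r c₁ : ℝ, 0 < r ∧ 0 < c₁ ∧
    ∀ (f : Fin 2 → Mon s → ℝ) (x : Fin s → ℝ) (a b : Fin s), (∀ i p, |f i p| ≤ 1) →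
    (∀ j, |x j| ≤ 1) → (∀ i, |qf (f i) x| ≤ r) → d ≤ |jm f x a b| →
    ∀ w : Fin s → ℝ, (∀ j, |w j| ≤ c₁) →
    ∃ y : Fin s → ℝ, (∀ j, j ≠ a → j ≠ b → y j = x j + w j) ∧ (∀ j, |y j - x j| ≤ 1 / 16) ∧
      ∀ i, qf (f i) y = 0

/-- (CUB) many disjoint cubes on which both forms are small. -/
def T_CUB : Prop :=
  ∀ (s : ℕ) (d : ℝ), 0 < d → ∃ r c₁ : ℝ, 0 < r ∧ 0 < c₁ ∧
    ∀ (f : Fin 2 → Mon s → ℝ) (x : Fin s → ℝ), (∀ i p, |f i p| ≤ 1) →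
    (∀ j, |x j| ≤ 1) → (∃ j, |x j| = 1) → (∀ i, |qf (f i) x| ≤ r) → (∃ j l, d ≤ |jm f x j l|) →
    ∀ ρ : ℝ, 0 < ρ → ρ ≤ c₁ → ∃ Y : Finset (Fin s → ℝ), (c₁ / ρ) ^ (s - 2) ≤ (Y.card : ℝ) ∧
      (∀ y ∈ Y, ∀ z : Fin s → ℝ, (∀ j, |z j - y j| ≤ ρ) →
        (∀ j, |z j| ≤ 1) ∧ (∃ j, 1 / 2 < |z j|) ∧ ∀ i, |qf (f i) z| ≤ s * (s + 1) * ρ) ∧
      ∀ y ∈ Y, ∀ y' ∈ Y, y ≠ y' → ∃ j, 2 * ρ < |y j - y' j|

/-- (SIE) primitive integral vectors in a cube and a residue class. -/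
def T_SIE : Prop :=
  ∀ (s W w : ℕ) (κ : ℝ), 6 ≤ s → 4 ≤ w → 1 ≤ W → (∀ p : ℕ, p.Prime → p ≤ w → p ∣ W) → 0 < κ →
    ∃ L₀ : ℝ, ∀ L : ℝ, L₀ ≤ L → ∀ u : Fin s → ℝ, (∀ j, |u j| ≤ κ * L) → ∀ a : Fin s → ZMod W,
      Prm a → {x : Fin s → ℤ | (∀ j, u j ≤ x j ∧ x j ≤ u j + L) ∧
          (∀ j, (x j : ZMod W) = a j) ∧ Prm x}.Finite ∧
        1 / 2 * (L / W) ^ s ≤ ({x : Fin s → ℤ | (∀ j, u j ≤ x j ∧ x j ≤ u j + L) ∧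
          (∀ j, (x j : ZMod W) = a j) ∧ Prm x}.ncard : ℝ)

open Classical in
/-- (LOC) the lower bound for the number of local zeros. -/
def T_LOC : Prop :=
  ∀ (s : ℕ) (d : ℝ) (t w₀ : ℕ), 6 ≤ s → 0 < d → ∃ r η δ₀ : ℝ, 0 < r ∧ 0 < η ∧ 0 < δ₀ ∧
    ∀ (W₀ W₁ w c' : ℕ) [NeZero W₀] [NeZero W₁] (δ : ℝ), Nat.Coprime W₀ W₁ →
    (∀ p : ℕ, p.Prime → p ∣ W₀ → p ≤ w₀) → (∀ p : ℕ, p.Prime → p ≤ w₀ → p ^ (2 * t) ∣ W₀) →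
    4 ≤ w → (∀ p : ℕ, p.Prime → p ≤ w → p ∣ W₀ * W₁) → 0 < δ → δ ≤ δ₀ → ∃ b₀ : ℕ, ∀ b A : ℕ,
    b₀ ≤ b → 1 ≤ A → ∀ c ∈ bx s A, RB d r A c → (∀ p : ℕ, p.Prime → p ≤ w₀ → PR t p c) →
    W₁ ^ (s - 2) ≤ 2 * am W₁ (cm (ZMod W₁) c) →
    η * δ ^ 2 * (b : ℝ) ^ (4 * s) / ((W₀ * W₁ : ℕ) : ℝ) ^ 2 ≤
      (((GS s b c').filter fun x => ∀ i, ((W₀ * W₁ : ℕ) : ℤ) ∣ qf (c i) x ∧
        |((qf (c i) x : ℤ) : ℝ)| ≤ δ * A * (b : ℝ) ^ 8).card : ℝ)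

/-! ### The end -/

open Classical in
/-- (MN) almost all robust pairs have a small zero. -/
def T_MN : Prop :=
  ∀ (s : ℕ) (d : ℝ) (t w₀ : ℕ), 6 ≤ s → 0 < d → ∃ r : ℝ, 0 < r ∧ ∀ ε : ℝ, 0 < ε →
    ∃ W₁ K A₀ : ℕ, ∃ _ : NeZero W₁, (∀ p : ℕ, p.Prime → p ∣ W₁ → w₀ < p) ∧ ∀ A : ℕ, A₀ ≤ A →
    (((bx s A).filter fun c => RB d r A c ∧ (∀ p : ℕ, p.Prime → p ≤ w₀ → PR t p c) ∧
      W₁ ^ (s - 2) ≤ 2 * am W₁ (cm (ZMod W₁) c) ∧ ¬ SZ K A c).card : ℝ) ≤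
      ε * (2 * (A : ℝ) + 1) ^ (2 * md s)

/-- (CRD) the number of the pairs. -/
def T_CRD : Prop :=
  ∀ s : ℕ, 2 * md s = s * (s + 1) ∧ ∀ A : ℕ, (bx s A).card = (2 * A + 1) ^ (s * (s + 1))

/-- (PS1) the pairs close to the special pair are robust. -/
def T_PS1 : Prop :=
  ∀ (s V A : ℕ) (r : ℝ) (c : Fin 2 → Mon s → ℤ), 3 ≤ s → r ≤ 1 / 4 → c ∈ sp s V A r →
    RB (1 / 2) r A c ∧ ∀ p : ℕ, p.Prime → p ^ 2 ∣ V → PR 1 p c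

/-- (PS2) the number of the pairs close to the special pair. -/
def T_PS2 : Prop :=
  ∀ (s V : ℕ) (r : ℝ), 1 ≤ V → 0 < r → r ≤ 1 → ∃ A₀ : ℕ, ∀ A : ℕ, A₀ ≤ A →
    (r * A / (2 * V)) ^ (2 * md s) ≤ ((sp s V A r).card : ℝ)

/-- (PS3) the pairs close to the special pair which are bad modulo `M`. -/
def T_PS3 : Prop :=
  ∀ (s V M : ℕ) [NeZero M] (r : ℝ), 1 ≤ V → 0 < r → r ≤ 1 → Nat.Coprime V M → ∃ A₀ : ℕ,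
    ∀ A : ℕ, A₀ ≤ A → ∀ E : Finset (Fin 2 → Mon s → ZMod M),
    (((sp s V A r).filter fun c => cm (ZMod M) c ∈ E).card : ℝ) * (M : ℝ) ^ (2 * md s) ≤
      (4 * r * A / V) ^ (2 * md s) * E.card

open Classical in
/-- (POS) a positive proportion of the pairs has a zero. -/
def T_POS : Prop :=
  ∀ s : ℕ, 6 ≤ s → ∃ δ : ℝ, 0 < δ ∧ ∃ A₀ : ℕ, ∀ A : ℕ, A₀ ≤ A →
    δ * (2 * (A : ℝ) + 1) ^ (2 * md s) ≤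
      (((bx s A).filter fun c => ∃ x : Fin s → ℤ, x ≠ 0 ∧ ∀ i, qf (c i) x = 0).card : ℝ)

open Classical in
/-- (HP) almost all locally soluble pairs have a small zero. -/
def T_HP : Prop :=
  ∀ s : ℕ, 6 ≤ s → ∀ ε : ℝ, 0 < ε → ∃ K A₀ : ℕ, ∀ A : ℕ, A₀ ≤ A →
    (((bx s A).filter fun c => LS c ∧ ¬ SZ K A c).card : ℝ) ≤
      ε * (2 * (A : ℝ) + 1) ^ (2 * md s)

end Pool.Agent.H32.RQ
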